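import Pool.Agent.Y199.SG.Siegel
import Pool.Agent.Y199.DM.Ret

/-!
Points on an elliptic curve over a number field which are near to the origin at a large place, and the
dynamical criterion for families with several parameters (helper file).
-/

set_option autoImplicit false

namespace Pool.Agent.Y199.SG

open NumberField IsDedekindDomain WithZero Pool.Agent.Y199.DM Pool.Agent.H936R2
open Pool.Agent.Helper259.AbsHt
open Pool.Agent.Y556.TW (Ov mem_Ov bad_finite)

/-- The criterion for two values of several parameters: the orbit at `t` if `t` is near to `α`. -/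
theorem near_core2 {N d r : ℕ} (F : (Fin r → ℂ) → Fin (N + 1) → MvPolynomial (Fin (N + 1)) ℂ)
    (x : (Fin r → ℂ) → Fin (N + 1) → ℂ)
    (cF : Fin (N + 1) → (Fin (N + 1) →₀ ℕ) → MvPolynomial (Fin r) ℂ)
    (cx : Fin (N + 1) → MvPolynomial (Fin r) ℂ)
    (hcF : ∀ t i κ, (F t i).coeff κ = MvPolynomial.eval t (cF i κ))
    (hcx : ∀ t i, x t i = MvPolynomial.eval t (cx i))
    (hfin : {q : Fin (N + 1) × (Fin (N + 1) →₀ ℕ) | cF q.1 q.2 ≠ 0}.Finite)
    (hF : ∀ t i, (F t i).IsHomogeneous d) (α : Fin r → ℂ) (hα : EtalePreperiodic (F α) (x α)) :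
    ∃ s : Finset ℂ, ∀ (p : ℕ) [Fact p.Prime] (τ : ℂ →+* PadicAlgCl p), (∀ y ∈ s, ‖τ y‖ ≤ 1) →
      ∀ t : Fin r → ℂ, (∀ i, ‖τ (t i)‖ ≤ 1) → (∀ i, ‖τ (t i) - τ (α i)‖ < 1) →
        DMLAt (F t) (x t) := by
  classical
  obtain ⟨s, n₀, -, hs⟩ := exists_units (F α) (hF α) _ hα
  let s1 : Finset ℂ := hfin.toFinset.biUnion fun q =>
    (cF q.1 q.2).support.image fun k => (cF q.1 q.2).coeff k
  let s2 : Finset ℂ := Finset.univ.biUnion fun i => (cx i).support.image fun k => (cx i).coeff k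
  have hs1 : ∀ i κ k, (cF i κ).coeff k ≠ 0 → (cF i κ).coeff k ∈ s1 := by
    intro i κ k h
    have h1 : cF i κ ≠ 0 := fun h0 => h (by rw [h0, MvPolynomial.coeff_zero])
    simp only [s1, Finset.mem_biUnion, Finset.mem_image]
    exact ⟨(i, κ), (Set.Finite.mem_toFinset hfin).2 h1, k, MvPolynomial.mem_support_iff.2 h, rfl⟩
  have hs2 : ∀ i k, (cx i).coeff k ≠ 0 → (cx i).coeff k ∈ s2 := by
    intro i k h
    simp only [s2, Finset.mem_biUnion, Finset.mem_image, Finset.mem_univ, true_and]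
    exact ⟨i, k, MvPolynomial.mem_support_iff.2 h, rfl⟩
  refine ⟨s ∪ s1 ∪ s2, fun p hp τ hτ t htn htα => ?_⟩
  have hτ0 : ∀ y ∈ s, ‖τ y‖ ≤ 1 := fun y hy => hτ y (by simp [hy])
  have hτ1 : ∀ i κ k, ‖τ ((cF i κ).coeff k)‖ ≤ 1 := by
    intro i κ k
    by_cases h : (cF i κ).coeff k = 0
    · rw [h, map_zero, norm_zero]
      exact zero_le_one
    · exact hτ _ (by simp [hs1 i κ k h])
  have hτ2 : ∀ i k, ‖τ ((cx i).coeff k)‖ ≤ 1 := by
    intro i k
    by_cases h : (cx i).coeff k = 0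
    · rw [h, map_zero, norm_zero]
      exact zero_le_one
    · exact hτ _ (by simp [hs2 i k h])
  have hαn : ∀ i, ‖τ (α i)‖ ≤ 1 := by
    intro i
    have h0 : ‖τ (α i) - τ (t i)‖ < 1 := by
      rw [norm_sub_rev]
      exact htα i
    have h1 : τ (α i) = (τ (α i) - τ (t i)) + τ (t i) := by ring
    rw [h1]
    exact (IsUltrametricDist.norm_add_le_max _ _).trans (max_le h0.le (htn i))
  have hev := fun (q : MvPolynomial (Fin r) ℂ) (hq : ∀ k, ‖τ (q.coeff k)‖ ≤ 1) =>
    mv_near τ q q t α hq hq (fun k => by rw [sub_self, norm_zero]; exact one_pos) htn hαn htα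
  obtain ⟨hdet, hne⟩ := hs p τ hτ0
  refine orbit_core τ (F t) (F α) (x t) (x α) (fun i κ => ?_)
    (fun i κ => ?_) (fun i κ => ?_) (fun i => ?_) (fun i => ?_)
    (fun i => ?_) n₀ hdet hne
  · rw [hcF]
    exact (hev _ (hτ1 i κ)).1
  · rw [hcF]
    exact (hev _ (hτ1 i κ)).2.1
  · rw [hcF, hcF]
    exact (hev _ (hτ1 i κ)).2.2
  · rw [hcx]
    exact (hev _ (hτ2 i)).1
  · rw [hcx]
    exact (hev _ (hτ2 i)).2.1
  · rw [hcx, hcx]
    exact (hev _ (hτ2 i)).2.2

/-- The roots of a cubic polynomial. -/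
theorem roots3 {K : Type*} [Field K] [IsAlgClosed K] [CharZero K] (α β : K)
    (h : 4 * α ^ 3 + 27 * β ^ 2 ≠ 0) : ∃ e : Fin 3 → K, Function.Injective e ∧
      ∀ T, T ^ 3 + α * T + β = (T - e 0) * (T - e 1) * (T - e 2) := by
  obtain ⟨e0, he0⟩ : ∃ e0 : K, e0 ^ 3 + α * e0 + β = 0 := by
    let P : Polynomial K := Polynomial.X ^ 3 + Polynomial.C α * Polynomial.X + Polynomial.C β
    have hP : P.degree = 3 := by
      simp only [P]
      compute_degree!
    obtain ⟨z, hz⟩ := IsAlgClosed.exists_root P (by rw [hP]; decide)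
    refine ⟨z, ?_⟩
    have h1 : P.eval z = 0 := hz
    simpa [P] using h1
  obtain ⟨δ, hδ⟩ := IsAlgClosed.exists_pow_nat_eq (-3 * e0 ^ 2 - 4 * α) (n := 2) two_pos
  have h2 : (2 : K) ≠ 0 := two_ne_zero
  let e1 : K := (-e0 + δ) / 2
  let e2 : K := (-e0 - δ) / 2
  have h12 : e1 + e2 = -e0 := by
    simp only [e1, e2]
    field_simp
    ring
  have h12' : e1 * e2 = α + e0 ^ 2 := by
    simp only [e1, e2]
    have : (-e0 + δ) / 2 * ((-e0 - δ) / 2) = (e0 ^ 2 - δ ^ 2) / 4 := by ring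
    rw [this, hδ]
    field_simp
    ring
  have hfac : ∀ T, T ^ 3 + α * T + β = (T - e0) * (T - e1) * (T - e2) := by
    intro T
    have h3 : (T - e1) * (T - e2) = T ^ 2 - (e1 + e2) * T + e1 * e2 := by ring
    rw [mul_assoc, h3, h12, h12']
    linear_combination he0
  have hdisc : -(4 * α ^ 3 + 27 * β ^ 2) = ((e0 - e1) * (e0 - e2) * (e1 - e2)) ^ 2 := by
    have ha : α = e1 * e2 - e0 ^ 2 := by rw [h12']; ring
    have hb : β = -e0 ^ 3 - α * e0 := by linear_combination he0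
    have h0 : e0 = -(e1 + e2) := by rw [h12]; ring
    rw [hb, ha, h0]
    ring
  have hne : ((e0 - e1) * (e0 - e2) * (e1 - e2)) ^ 2 ≠ 0 := by
    rw [← hdisc]
    exact neg_ne_zero.2 h
  refine ⟨![e0, e1, e2], ?_, hfac⟩
  have hA : e0 ≠ e1 := by
    intro h3
    apply hne
    rw [h3]
    ring
  have hB : e0 ≠ e2 := by
    intro h3
    apply hne
    rw [h3]
    ring
  have hC : e1 ≠ e2 := by
    intro h3
    apply hne
    rw [h3]
    ring
  intro i j hij
  fin_cases i <;> fin_cases j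
  · rfl
  · exact absurd hij hA
  · exact absurd hij hB
  · exact absurd hij.symm hA
  · rfl
  · exact absurd hij hC
  · exact absurd hij.symm hB
  · exact absurd hij.symm hC
  · rfl

theorem exists_bound {L : IntermediateField ℚ Qbar} [NumberField L]
    (S : Set (HeightOneSpectrum (𝓞 L))) (hS : S.Finite) : ∃ D : ℕ,
    ∀ v : HeightOneSpectrum (𝓞 L), (∀ p : ℕ, p.Prime → p ≤ D → ¬ v.valuation L (p : L) < 1) →
      v ∉ S := by
  classical
  choose p hp hlt using fun v : HeightOneSpectrum (𝓞 L) => exists_prime_lt v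
  refine ⟨∑ v ∈ hS.toFinset, p v, fun v hv hvS => hv (p v) (hp v) ?_ (hlt v)⟩
  exact Finset.single_le_sum (f := p) (fun _ _ => Nat.zero_le _)
    ((Set.Finite.mem_toFinset hS).2 hvS)

/-- The chart at the origin of an elliptic curve: with the coordinates `t = (x / y, 1 / y)` the
equation is `t₁ = t₀³ + a t₀ t₁² + b t₁³`. -/
def curve (a b : ℂ) : Set (Fin 2 → ℂ) :=
  {t | t 1 = t 0 ^ 3 + a * t 0 * t 1 ^ 2 + b * t 1 ^ 3}

/-- All but finitely many points of an elliptic curve over a number field are near to the origin at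
some place. -/
theorem near_elliptic (a b : ℂ) (ha : IsAlgebraic ℚ a) (hb : IsAlgebraic ℚ b)
    (hab : 4 * a ^ 3 + 27 * b ^ 2 ≠ 0) (E : IntermediateField ℚ ℂ) [FiniteDimensional ℚ E]
    (s : Finset ℂ) :
    {t : Fin 2 → ℂ | t ∈ curve a b ∧ (∀ i, t i ∈ E) ∧ ¬ Near s 0 (t 1)}.Finite := by
  classical
  -- the field in `ℂ`
  let A : IntermediateField ℚ ℂ := IntermediateField.adjoin ℚ {a, b}
  haveI hA : FiniteDimensional ℚ A := IntermediateField.finiteDimensional_adjoin (by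
    intro z hz
    rcases hz with rfl | hz
    · exact ha.isIntegral
    · rw [Set.mem_singleton_iff] at hz
      rw [hz]
      exact hb.isIntegral)
  let LC : IntermediateField ℚ ℂ := E ⊔ A
  haveI hLC : FiniteDimensional ℚ LC := IntermediateField.finiteDimensional_sup E A
  haveI : Algebra.IsAlgebraic ℚ LC := Algebra.IsAlgebraic.of_finite ℚ LC
  have haL : a ∈ LC := (le_sup_right : A ≤ LC)
    (IntermediateField.subset_adjoin ℚ _ (Set.mem_insert _ _))
  have hbL : b ∈ LC := (le_sup_right : A ≤ LC)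
    (IntermediateField.subset_adjoin ℚ _ (Set.mem_insert_of_mem _ rfl))
  let φ : LC →ₐ[ℚ] Qbar := IsAlgClosed.lift
  let a' : LC := ⟨a, haL⟩
  let b' : LC := ⟨b, hbL⟩
  have hab' : 4 * (φ a') ^ 3 + 27 * (φ b') ^ 2 ≠ 0 := by
    have h1 : 4 * (φ a') ^ 3 + 27 * (φ b') ^ 2 = φ (4 * a' ^ 3 + 27 * b' ^ 2) := by
      simp only [map_add, map_mul, map_pow, map_ofNat]
    rw [h1, Ne, map_eq_zero]
    intro h2
    apply hab
    have h3 : (algebraMap LC ℂ) (4 * a' ^ 3 + 27 * b' ^ 2) = 0 := by rw [h2, map_zero]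
    simp only [map_add, map_mul, map_pow, map_ofNat] at h3
    exact h3
  obtain ⟨e, he, hefac⟩ := roots3 (φ a') (φ b') hab'
  obtain ⟨M0, hM0, hmem⟩ := exists_nf (Set.range e) (Set.finite_range e)
  let L0 : IntermediateField ℚ Qbar := φ.fieldRange
  haveI hL0 : FiniteDimensional ℚ L0 :=
    inferInstanceAs (FiniteDimensional ℚ (LinearMap.range φ.toLinearMap))
  haveI hM0' : FiniteDimensional ℚ M0 := inferInstance
  let L : IntermediateField ℚ Qbar := L0 ⊔ M0
  haveI hL : FiniteDimensional ℚ L := IntermediateField.finiteDimensional_sup L0 M0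
  haveI hNL : NumberField L := ⟨⟩
  let ψ : LC →+* L :=
    { toFun := fun z => ⟨φ z, (le_sup_left : L0 ≤ L) ⟨z, rfl⟩⟩
      map_one' := Subtype.ext (map_one φ)
      map_zero' := Subtype.ext (map_zero φ)
      map_mul' := fun a b => Subtype.ext (map_mul φ a b)
      map_add' := fun a b => Subtype.ext (map_add φ a b) }
  let e' : Fin 3 → L := fun i => ⟨e i, (le_sup_right : M0 ≤ L) (hmem _ ⟨i, rfl⟩)⟩
  have he' : Function.Injective e' := fun i j hij =>
    he (congrArg (fun z : L => (z : Qbar)) hij)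
  have hefac' : ∀ T : L, T ^ 3 + ψ a' * T + ψ b' = (T - e' 0) * (T - e' 1) * (T - e' 2) := by
    intro T
    apply Subtype.ext
    have := hefac (T : Qbar)
    push_cast
    exact this
  -- the primes
  obtain ⟨D1, hD1⟩ := near_place s
  obtain ⟨D2, hD2⟩ := exists_bound _ (bad_finite (K := L)
    {((ψ a' : L) : Qbar), ((ψ b' : L) : Qbar)} (by simp) (by
      intro w hw
      rcases hw with rfl | hw
      · exact (ψ a' : L).2
      · rw [Set.mem_singleton_iff] at hw
        rw [hw]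
        exact (ψ b' : L).2))
  set D := D1 + D2 with hD
  have hfin := siegel e' he' D.factorial (Nat.factorial_pos D)
  -- the finite set of the coordinates
  have hfin2 : {q : L × L | q.2 ^ 2 = q.1 ^ 3 + ψ a' * q.1 + ψ b' ∧
      ∃ k : ℕ, IsIntegral ℤ (((D.factorial : ℕ) : L) ^ k * q.1)}.Finite := by
    have h1 : ∀ c : L, {y : L | y ^ 2 = c}.Finite := by
      intro c
      by_cases h : ∃ y0 : L, y0 ^ 2 = c
      · obtain ⟨y0, rfl⟩ := h
        refine (Set.toFinite {y0, -y0}).subset fun y hy => ?_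
        rcases sq_eq_sq_iff_eq_or_eq_neg.1 hy with h2 | h2
        · exact Or.inl h2
        · exact Or.inr h2
      · refine Set.finite_empty.subset fun y hy => h ⟨y, hy⟩
    have h2 : (⋃ X ∈ {x : L | (∃ k : ℕ, IsIntegral ℤ (((D.factorial : ℕ) : L) ^ k * x)) ∧
        ∃ y : L, y ^ 2 = (x - e' 0) * (x - e' 1) * (x - e' 2)},
        (fun y : L => (X, y)) '' {y : L | y ^ 2 = X ^ 3 + ψ a' * X + ψ b'}).Finite :=
      hfin.biUnion fun X _ => (h1 _).image _
    refine h2.subset ?_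
    rintro ⟨X, Y⟩ ⟨hY, hk⟩
    refine Set.mem_biUnion (x := X) ⟨hk, Y, ?_⟩ ⟨Y, hY, rfl⟩
    rw [← hefac']
    exact hY
  -- the map
  have hfin3 : {q : LC × LC | (ψ q.1, ψ q.2) ∈ {q : L × L | q.2 ^ 2 = q.1 ^ 3 + ψ a' * q.1 + ψ b' ∧
      ∃ k : ℕ, IsIntegral ℤ (((D.factorial : ℕ) : L) ^ k * q.1)}}.Finite :=
    hfin2.preimage (f := fun q : LC × LC => (ψ q.1, ψ q.2)) (by
      rintro ⟨x1, y1⟩ - ⟨x2, y2⟩ - h
      have h1 := congrArg Prod.fst h
      have h2 := congrArg Prod.snd h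
      exact Prod.ext (ψ.injective h1) (ψ.injective h2))
  have hfin4 := hfin3.image fun q : LC × LC =>
    (![((q.1 : LC) : ℂ) / (q.2 : LC), 1 / ((q.2 : LC) : ℂ)] : Fin 2 → ℂ)
  refine (hfin4.union (Set.finite_singleton (0 : Fin 2 → ℂ))).subset ?_
  rintro t ⟨htc, htE, htn⟩
  have hcurve : t 1 = t 0 ^ 3 + a * t 0 * t 1 ^ 2 + b * t 1 ^ 3 := htc
  by_cases hw : t 1 = 0
  · right
    have h0 : t 0 = 0 := by
      rw [hw] at hcurve
      have h1 : t 0 ^ 3 = 0 := by linear_combination -hcurve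
      exact pow_eq_zero_iff (by norm_num) |>.1 h1
    rw [Set.mem_singleton_iff]
    funext i
    fin_cases i
    · exact h0
    · exact hw
  left
  have hE : ∀ z ∈ E, z ∈ LC := fun z hz => (le_sup_left : E ≤ LC) hz
  let X : LC := ⟨t 0 / t 1, LC.div_mem (hE _ (htE 0)) (hE _ (htE 1))⟩
  let Y : LC := ⟨1 / t 1, LC.div_mem LC.one_mem (hE _ (htE 1))⟩
  let W : LC := ⟨t 1, hE _ (htE 1)⟩
  have hYW : Y * W = 1 := by
    apply Subtype.ext
    change 1 / t 1 * t 1 = 1
    field_simp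
  have heq : Y ^ 2 = X ^ 3 + a' * X + b' := by
    apply Subtype.ext
    change (1 / t 1) ^ 2 = (t 0 / t 1) ^ 3 + a * (t 0 / t 1) + b
    have h1 : (1 / t 1) ^ 2 = (t 1) / (t 1) ^ 3 := by
      field_simp
    rw [h1]
    nth_rewrite 1 [hcurve]
    field_simp
  have heqψ : (ψ Y) ^ 2 = (ψ X) ^ 3 + ψ a' * ψ X + ψ b' := by
    rw [← map_pow, heq, map_add, map_add, map_pow, map_mul]
  refine ⟨(X, Y), ⟨heqψ, int_of_val D (ψ X) fun v hv => ?_⟩, ?_⟩
  · -- integrality
    have hv1 : ∀ p : ℕ, p.Prime → p ≤ D1 → ¬ v.valuation L (p : L) < 1 :=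
      fun p hp hle => hv p hp (by omega)
    have hv2 : v ∉ _ := hD2 v (fun p hp hle => hv p hp (by omega))
    have hbad : ∀ w : L, (w : Qbar) ∈ ({((ψ a' : L) : Qbar), ((ψ b' : L) : Qbar)} : Set Qbar) →
        v.valuation L w ≤ 1 := by
      intro w hw'
      by_contra h
      exact hv2 ⟨_, hw', fun h2 => h ((mem_Ov _).1 h2)⟩
    have haI : v.valuation L (ψ a') ≤ 1 := hbad _ (Set.mem_insert _ _)
    have hbI : v.valuation L (ψ b') ≤ 1 := hbad _ (Set.mem_insert_of_mem _ rfl)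
    have hWv : ¬ v.valuation L (ψ W) < 1 := by
      intro hlt
      apply htn
      have h1 : IsAlgebraic ℚ W := Algebra.IsAlgebraic.isAlgebraic W
      have h2 : IsAlgebraic ℚ ((W : LC) : ℂ) := h1.algebraMap
      obtain ⟨p, hp, τ, hτ, hτ2⟩ := hD1 L v hv1 (ψ W) ((W : LC) : ℂ) h2 (by
        intro G hG
        have h3 : Polynomial.aeval ((algebraMap LC ℂ) W) G = 0 := hG
        rw [aeval_int_hom] at h3
        have h4 : Polynomial.aeval W G = 0 := (map_eq_zero _).1 h3
        have h5 : Polynomial.aeval (ψ W) G = ψ (Polynomial.aeval W G) := aeval_int_hom ψ W G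
        rw [h4, map_zero] at h5
        exact h5) hlt
      refine ⟨p, hp, τ, hτ, ?_⟩
      rw [sub_zero]
      exact hτ2
    have hYv : v.valuation L (ψ Y) ≤ 1 := by
      have h1 : v.valuation L (ψ Y) * v.valuation L (ψ W) = 1 := by
        rw [← map_mul, ← map_mul, hYW, map_one, map_one]
      calc v.valuation L (ψ Y) = v.valuation L (ψ Y) * 1 := (mul_one _).symm
        _ ≤ v.valuation L (ψ Y) * v.valuation L (ψ W) := mul_le_mul' le_rfl (not_lt.1 hWv)
        _ = 1 := h1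
    by_contra hX
    push Not at hX
    have h1 : (ψ X) ^ 3 = (ψ Y) ^ 2 - ψ a' * ψ X - ψ b' := by
      rw [heqψ]
      ring
    have h2 : v.valuation L ((ψ X) ^ 3) ≤ v.valuation L (ψ X) := by
      rw [h1]
      refine (Valuation.map_sub _ _ _).trans (max_le ((Valuation.map_sub _ _ _).trans
        (max_le ?_ ?_)) (hbI.trans hX.le))
      · rw [map_pow]
        exact (pow_le_one' hYv 2).trans hX.le
      · rw [map_mul]
        exact (mul_le_mul' haI le_rfl).trans_eq (one_mul _)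
    have h3 : v.valuation L (ψ X) < v.valuation L ((ψ X) ^ 3) := by
      rw [map_pow]
      exact lt_self_pow₀ hX (by norm_num)
    exact absurd h2 (not_le.2 h3)
  · funext i
    fin_cases i
    · change (t 0 / t 1) / (1 / t 1) = t 0
      field_simp
    · change 1 / (1 / t 1) = t 1
      field_simp

end Pool.Agent.Y199.SG
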