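import Pool.Agent.Y199.SG.Pt
import Pool.Agent.Y199.ZF.Rat
import Pool.Agent.Y910.Z.Z3

/-!
Values of functions at the points of an elliptic curve over a number field are near to given values
(helper file).
-/

set_option autoImplicit false

namespace Pool.Agent.Y199.SG

open Pool.Agent.Y199.DM Pool.Agent.Y199.ZF Pool.Agent.Y910.Z

/-- All but finitely many values `u(P) / v(P)` at the points over a number field are near to all
the values `u(Q_l) / v(Q_l)` at places which are nonnegative on a given finite set. -/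
theorem near_values {M : ℕ} (a b : ℂ) (ha : IsAlgebraic ℚ a) (hb : IsAlgebraic ℚ b)
    (hab : 4 * a ^ 3 + 27 * b ^ 2 ≠ 0) (u v : MvPolynomial (Fin 2) ℂ) (Q : Fin M → Fin 2 → ℂ)
    (hQ : ∀ l, Q l ∈ aff a b) (hQa : ∀ l i, IsAlgebraic ℚ (Q l i))
    (hv : ∀ l, MvPolynomial.eval (Q l) v ≠ 0) (W : Finset ℂ)
    (E : IntermediateField ℚ ℂ) [FiniteDimensional ℚ E] :
    {P : Fin 2 → ℂ | P ∈ aff a b ∧ (∀ i, P i ∈ E) ∧
      ¬ (∀ l, ∃ V : ValuationSubring ℂ, (∀ z ∈ W, z ∈ V) ∧
        V.valuation (MvPolynomial.eval P u / MvPolynomial.eval P v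
          - MvPolynomial.eval (Q l) u / MvPolynomial.eval (Q l) v) < 1)}.Finite := by
  classical
  let S : Fin M → Finset ℂ := fun l => W ∪ (u.support.image fun k => u.coeff k) ∪
    (v.support.image fun k => v.coeff k) ∪ {Q l 0, Q l 1, (MvPolynomial.eval (Q l) v)⁻¹}
  have hbad := Set.finite_iUnion fun l : Fin M =>
    near_pt a b ha hb hab (Q l) (hQ l) (hQa l) E (S l)
  refine hbad.subset ?_
  rintro P ⟨hP, hPE, hcon⟩
  by_contra hnot
  apply hcon
  intro l
  have h1 : ∃ (p : ℕ) (_ : Fact p.Prime) (τ : ℂ →+* PadicAlgCl p),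
      (∀ y ∈ S l, ‖τ y‖ ≤ 1) ∧ ∀ i, ‖τ (P i) - τ (Q l i)‖ < 1 := by
    by_contra h2
    exact hnot (Set.mem_iUnion.2 ⟨l, hP, hPE, h2⟩)
  obtain ⟨p, hp, τ, hτ, hnear⟩ := h1
  refine ⟨ringOf τ, fun z hz => (mem_ringOf τ).2 (hτ z (by simp [S, hz])), val_ringOf τ ?_⟩
  have hcoef : ∀ q : MvPolynomial (Fin 2) ℂ, (∀ k ∈ q.support, q.coeff k ∈ S l) →
      ∀ k, ‖τ (q.coeff k)‖ ≤ 1 := by
    intro q hq k
    by_cases h2 : k ∈ q.support
    · exact hτ _ (hq k h2)
    · rw [MvPolynomial.notMem_support_iff.1 h2, map_zero, norm_zero]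
      exact zero_le_one
  have hcu := hcoef u fun k hk => Finset.mem_union_left _ (Finset.mem_union_left _
    (Finset.mem_union_right _ (Finset.mem_image_of_mem _ hk)))
  have hcv := hcoef v fun k hk => Finset.mem_union_left _ (Finset.mem_union_right _
    (Finset.mem_image_of_mem _ hk))
  have hQl : ∀ i, ‖τ (Q l i)‖ ≤ 1 := by
    intro i
    refine hτ _ (Finset.mem_union_right _ ?_)
    fin_cases i
    · exact Finset.mem_insert_self _ _
    · exact Finset.mem_insert_of_mem (Finset.mem_insert_self _ _)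
  have hPl : ∀ i, ‖τ (P i)‖ ≤ 1 := by
    intro i
    have h1 : τ (P i) = (τ (P i) - τ (Q l i)) + τ (Q l i) := by ring
    rw [h1]
    exact norm_add3 (hnear i).le (hQl i)
  obtain ⟨u1, u2, u3⟩ := mv_near τ u u P (Q l) hcu hcu
    (fun k => by rw [sub_self, norm_zero]; exact one_pos) hPl hQl hnear
  obtain ⟨v1, v2, v3⟩ := mv_near τ v v P (Q l) hcv hcv
    (fun k => by rw [sub_self, norm_zero]; exact one_pos) hPl hQl hnear
  have hvQ : ‖τ (MvPolynomial.eval (Q l) v)‖ = 1 := by
    refine le_antisymm v2 ?_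
    have h2 : ‖τ (MvPolynomial.eval (Q l) v)⁻¹‖ ≤ 1 := hτ _ (Finset.mem_union_right _
      (Finset.mem_insert_of_mem (Finset.mem_insert_of_mem (Finset.mem_singleton_self _))))
    rw [map_inv₀, norm_inv] at h2
    exact (inv_le_one₀ (norm_pos_iff.2 ((map_ne_zero τ).2 (hv l)))).1 h2
  have hvP : ‖τ (MvPolynomial.eval P v)‖ = 1 := by
    refine le_antisymm v1 ?_
    by_contra h5
    push Not at h5
    have h6 : ‖τ (MvPolynomial.eval (Q l) v)‖ < 1 := by
      have h7 : τ (MvPolynomial.eval (Q l) v) = τ (MvPolynomial.eval P v)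
          - (τ (MvPolynomial.eval P v) - τ (MvPolynomial.eval (Q l) v)) := by ring
      rw [h7, sub_eq_add_neg]
      refine lt_of_le_of_lt (IsUltrametricDist.norm_add_le_max _ _) (max_lt h5 ?_)
      rw [norm_neg]
      exact v3
    exact absurd hvQ h6.ne
  have hvP0 : MvPolynomial.eval P v ≠ 0 := by
    intro h0
    rw [h0, map_zero, norm_zero] at hvP
    exact zero_ne_one hvP
  have heq : MvPolynomial.eval P u / MvPolynomial.eval P v
      - MvPolynomial.eval (Q l) u / MvPolynomial.eval (Q l) v =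
      ((MvPolynomial.eval P u - MvPolynomial.eval (Q l) u) * MvPolynomial.eval (Q l) v
        - MvPolynomial.eval (Q l) u * (MvPolynomial.eval P v - MvPolynomial.eval (Q l) v))
      / (MvPolynomial.eval P v * MvPolynomial.eval (Q l) v) := by
    have := hv l
    field_simp
    ring
  rw [heq, map_div₀, norm_div, map_mul, norm_mul, hvP, hvQ, mul_one, div_one, map_sub, map_mul,
    map_mul, map_sub, map_sub, sub_eq_add_neg]
  refine lt_of_le_of_lt (IsUltrametricDist.norm_add_le_max _ _) (max_lt ?_ ?_)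
  · rw [norm_mul, hvQ, mul_one]
    exact u3
  · rw [norm_neg, norm_mul]
    calc ‖τ (MvPolynomial.eval (Q l) u)‖ * ‖τ (MvPolynomial.eval P v)
            - τ (MvPolynomial.eval (Q l) v)‖
        ≤ 1 * ‖τ (MvPolynomial.eval P v) - τ (MvPolynomial.eval (Q l) v)‖ :=
          mul_le_mul_of_nonneg_right u2 (norm_nonneg _)
      _ < 1 := by rw [one_mul]; exact v3

/-- A place near to `a` gives that the difference is not invertible. -/
theorem not_bad {k : Type} [Field k] [Algebra k ℂ] (W : Set k) (t a : k) (V : ValuationSubring ℂ)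
    (hW : ∀ z ∈ W, algebraMap k ℂ z ∈ V) (ha : a ∈ W)
    (h : V.valuation (algebraMap k ℂ t - algebraMap k ℂ a) < 1) : ¬ Bad W t a := by
  rintro ⟨hne, hmem⟩
  have hta : algebraMap k ℂ (t - a) ∈ V := by
    rw [map_sub]
    exact (ValuationSubring.valuation_le_one_iff _ _).1 h.le
  have ht : algebraMap k ℂ t ∈ V := by
    have h1 : algebraMap k ℂ t = algebraMap k ℂ (t - a) + algebraMap k ℂ a := by
      rw [map_sub]
      ring
    rw [h1]
    exact V.add_mem _ _ hta (hW a ha)
  have h2 : Subring.closure (insert t W) ≤ V.toSubring.comap (algebraMap k ℂ) := by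
    rw [Subring.closure_le]
    intro z hz
    rcases hz with rfl | hz
    · exact ht
    · exact hW z hz
  have h3 : algebraMap k ℂ (t - a)⁻¹ ∈ V := h2 hmem
  have h4 := (ValuationSubring.valuation_le_one_iff _ _).2 h3
  rw [map_inv₀, map_inv₀, map_sub] at h4
  have h5 : V.valuation (algebraMap k ℂ t - algebraMap k ℂ a) ≠ 0 := by
    refine (Valuation.ne_zero_iff _).2 (sub_ne_zero.2 fun h6 => hne ?_)
    exact (algebraMap k ℂ).injective h6
  have h6 := (inv_le_one₀ (zero_lt_iff.2 h5)).1 h4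
  exact absurd h (not_lt.2 h6)

end Pool.Agent.Y199.SG
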