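import Pool.Agent.Y199.SG.Ell

/-!
Points on an elliptic curve over a number field which are near to a given algebraic point at a large
place (helper file).
-/

set_option autoImplicit false

namespace Pool.Agent.Y199.SG

open Pool.Agent.Y199.DM

/-- The affine points of the curve `y² = x³ + a x + b`. -/
def aff (a b : ℂ) : Set (Fin 2 → ℂ) :=
  {P | P 1 ^ 2 = P 0 ^ 3 + a * P 0 + b}

theorem quartic_finite (α β γ δ a b : ℂ)
    (h : α ≠ 0 ∨ 2 * α * β + δ ≠ 0 ∨ (α = 0 ∧ δ = 0 ∧ β ≠ 0)) :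
    {x : ℂ | (α * x ^ 2 - β * x + γ) ^ 2 - δ * (x ^ 3 + a * x + b) = 0}.Finite := by
  let P : Polynomial ℂ := (Polynomial.C α * Polynomial.X ^ 2 - Polynomial.C β * Polynomial.X
    + Polynomial.C γ) ^ 2 - Polynomial.C δ * (Polynomial.X ^ 3 + Polynomial.C a * Polynomial.X
    + Polynomial.C b)
  have hev : ∀ x, P.eval x = (α * x ^ 2 - β * x + γ) ^ 2 - δ * (x ^ 3 + a * x + b) := by
    intro x
    simp [P]
  have hP : P ≠ 0 := by
    intro h0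
    have h1 : ∀ x, (α * x ^ 2 - β * x + γ) ^ 2 - δ * (x ^ 3 + a * x + b) = 0 := by
      intro x
      rw [← hev, h0, Polynomial.eval_zero]
    have e0 := h1 0
    have e1 := h1 1
    have e2 := h1 (-1)
    have e3 := h1 2
    have e4 := h1 (-2)
    have h4 : α ^ 2 = 0 := by
      linear_combination (1 / 24 : ℂ) * e3 - (4 / 24 : ℂ) * e1 + (6 / 24 : ℂ) * e0
        - (4 / 24 : ℂ) * e2 + (1 / 24 : ℂ) * e4
    have h3 : 2 * α * β + δ = 0 := by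
      linear_combination -((1 / 12 : ℂ) * e3 - (2 / 12 : ℂ) * e1 + (2 / 12 : ℂ) * e2
        - (1 / 12 : ℂ) * e4)
    have hα : α = 0 := pow_eq_zero_iff two_ne_zero |>.1 h4
    rcases h with h | h | ⟨-, hδ, hβ⟩
    · exact h hα
    · exact h h3
    · have h2 : β ^ 2 = 0 := by
        rw [hα, hδ] at e0 e1 e2
        linear_combination (1 / 2 : ℂ) * e1 + (1 / 2 : ℂ) * e2 - e0
      exact hβ (pow_eq_zero_iff two_ne_zero |>.1 h2)
  refine (Polynomial.finite_setOfPred_isRoot hP).subset fun x hx => ?_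
  change P.eval x = 0
  rw [hev]
  exact hx

theorem fibre_finite (a b x : ℂ) : {P : Fin 2 → ℂ | P ∈ aff a b ∧ P 0 = x}.Finite := by
  obtain ⟨y0, hy0⟩ := IsAlgClosed.exists_pow_nat_eq (x ^ 3 + a * x + b) (n := 2) two_pos
  refine (Set.toFinite {![x, y0], ![x, -y0]}).subset ?_
  rintro P ⟨hP, hx⟩
  have h1 : P 1 ^ 2 = y0 ^ 2 := by
    rw [hy0, ← hx]
    exact hP
  rcases sq_eq_sq_iff_eq_or_eq_neg.1 h1 with h2 | h2
  · refine Or.inl ?_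
    funext i
    fin_cases i
    · exact hx
    · exact h2
  · refine Or.inr ?_
    funext i
    fin_cases i
    · exact hx
    · exact h2

theorem fibres_finite (a b : ℂ) {Z : Set ℂ} (hZ : Z.Finite) :
    {P : Fin 2 → ℂ | P ∈ aff a b ∧ P 0 ∈ Z}.Finite := by
  refine (hZ.biUnion fun x _ => fibre_finite a b x).subset ?_
  rintro P ⟨h1, h2⟩
  exact Set.mem_biUnion h2 ⟨h1, rfl⟩

theorem cubic_finite (a b : ℂ) : {x : ℂ | x ^ 3 + a * x + b = 0}.Finite := by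
  have h := quartic_finite 0 0 0 1 a b (Or.inr (Or.inl (by norm_num)))
  refine h.subset fun x hx => ?_
  have hx' : x ^ 3 + a * x + b = 0 := hx
  change (0 * x ^ 2 - 0 * x + 0) ^ 2 - 1 * (x ^ 3 + a * x + b) = 0
  rw [hx']
  ring

theorem zero_finite (a b : ℂ) : {P : Fin 2 → ℂ | P ∈ aff a b ∧ P 1 = 0}.Finite := by
  refine (fibres_finite a b (cubic_finite a b)).subset ?_
  rintro P ⟨h1, h2⟩
  refine ⟨h1, ?_⟩
  have h3 : P 1 ^ 2 = P 0 ^ 3 + a * P 0 + b := h1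
  change P 0 ^ 3 + a * P 0 + b = 0
  rw [← h3, h2]
  norm_num

section norms

variable {K : Type*} [NormedField K] [IsUltrametricDist K]

theorem norm_add3 {x y : K} {C : ℝ} (hx : ‖x‖ ≤ C) (hy : ‖y‖ ≤ C) : ‖x + y‖ ≤ C :=
  (IsUltrametricDist.norm_add_le_max _ _).trans (max_le hx hy)

theorem norm_sub3 {x y : K} {C : ℝ} (hx : ‖x‖ ≤ C) (hy : ‖y‖ ≤ C) : ‖x - y‖ ≤ C := by
  rw [sub_eq_add_neg]
  exact norm_add3 hx (by rw [norm_neg]; exact hy)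

theorem norm_mul3 {x y : K} (hx : ‖x‖ ≤ 1) (hy : ‖y‖ ≤ 1) : ‖x * y‖ ≤ 1 := by
  rw [norm_mul]
  exact mul_le_one₀ hx (norm_nonneg _) hy

theorem norm_mul4 {x y : K} {C : ℝ} (hx : ‖x‖ ≤ 1) (hy : ‖y‖ ≤ C) : ‖x * y‖ ≤ C := by
  rw [norm_mul]
  exact (mul_le_of_le_one_left (norm_nonneg _) hx).trans hy

theorem norm_pow3 {x : K} (hx : ‖x‖ ≤ 1) (n : ℕ) : ‖x ^ n‖ ≤ 1 := by
  rw [norm_pow]
  exact pow_le_one₀ (norm_nonneg _) hx

theorem norm_two : ‖(2 : K)‖ ≤ 1 := by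
  have h : (2 : K) = 1 + 1 := by norm_num
  rw [h]
  exact norm_add3 (by rw [norm_one]) (by rw [norm_one])

/-- If the difference of two points is near to the origin then the points are near. -/
theorem near_of_diff (a b x0 y0 x1 y1 X : K) (ha : ‖a‖ ≤ 1) (hb : ‖b‖ ≤ 1) (hx0 : ‖x0‖ ≤ 1)
    (hy0 : ‖y0‖ ≤ 1) (h0 : y0 ^ 2 = x0 ^ 3 + a * x0 + b) (h1 : y1 ^ 2 = x1 ^ 3 + a * x1 + b)
    (hne : x1 ≠ x0)
    (hX : X * (x1 - x0) ^ 2 = x0 * x1 ^ 2 + x0 ^ 2 * x1 + a * (x1 + x0) + 2 * b + 2 * y0 * y1)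
    (hX1 : 1 < ‖X‖) : ‖x1 - x0‖ < 1 ∧ ‖y1 - y0‖ < 1 := by
  have h2 := norm_two (K := K)
  have hx1 : ‖x1‖ ≤ 1 := by
    by_contra h
    push Not at h
    have hp2 : ‖x1‖ ≤ ‖x1‖ ^ 2 := le_self_pow₀ h.le (by norm_num)
    have hone : (1 : ℝ) ≤ ‖x1‖ ^ 2 := h.le.trans hp2
    have hd : ‖x1 - x0‖ = ‖x1‖ := by
      have h3 : ‖x0‖ < ‖x1‖ := lt_of_le_of_lt hx0 h
      refine le_antisymm (norm_sub3 le_rfl h3.le) ?_
      by_contra h4
      push Not at h4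
      have h5 : ‖x1‖ < ‖x1‖ := by
        calc ‖x1‖ = ‖(x1 - x0) + x0‖ := by rw [sub_add_cancel]
          _ ≤ max ‖x1 - x0‖ ‖x0‖ := IsUltrametricDist.norm_add_le_max _ _
          _ < ‖x1‖ := max_lt h4 h3
      exact lt_irrefl _ h5
    have hy : ‖y1‖ ≤ ‖x1‖ ^ 2 := by
      by_contra h3
      push Not at h3
      have h4 : ‖y1‖ ^ 2 ≤ ‖x1‖ ^ 3 := by
        rw [← norm_pow, h1]
        have h5 : (1 : ℝ) ≤ ‖x1‖ ^ 3 := one_le_pow₀ h.le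
        have h6 : ‖x1‖ ≤ ‖x1‖ ^ 3 := le_self_pow₀ h.le (by norm_num)
        refine norm_add3 (norm_add3 ?_ ?_) (hb.trans h5)
        · rw [norm_pow]
        · exact norm_mul4 ha h6
      have h5 : (‖x1‖ ^ 2) ^ 2 < ‖y1‖ ^ 2 := pow_lt_pow_left₀ h3 (by positivity) (by norm_num)
      have h6 : ‖x1‖ ^ 3 ≤ (‖x1‖ ^ 2) ^ 2 := by
        rw [← pow_mul]
        exact pow_le_pow_right₀ h.le (by norm_num)
      linarith
    have h3 : ‖X‖ * ‖x1‖ ^ 2 ≤ ‖x1‖ ^ 2 := by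
      have h4 : ‖X‖ * ‖x1‖ ^ 2 = ‖X * (x1 - x0) ^ 2‖ := by
        rw [norm_mul, norm_pow, hd]
      rw [h4, hX]
      refine norm_add3 (norm_add3 (norm_add3 (norm_add3 ?_ ?_) ?_) ?_) ?_
      · refine norm_mul4 hx0 ?_
        rw [norm_pow]
      · exact norm_mul4 (norm_pow3 hx0 2) hp2
      · exact norm_mul4 ha (norm_add3 hp2 (hx0.trans hone))
      · exact (norm_mul3 h2 hb).trans hone
      · exact norm_mul4 (norm_mul3 h2 hy0) hy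
    have h5 : ‖x1‖ ^ 2 < ‖X‖ * ‖x1‖ ^ 2 := by
      have : 0 < ‖x1‖ ^ 2 := by positivity
      nlinarith
    linarith
  have hy1 : ‖y1‖ ≤ 1 := by
    by_contra h
    push Not at h
    have h3 : ‖y1‖ ^ 2 ≤ 1 := by
      rw [← norm_pow, h1]
      exact norm_add3 (norm_add3 (norm_pow3 hx1 3) (norm_mul3 ha hx1)) hb
    have h4 : (1 : ℝ) < ‖y1‖ ^ 2 := one_lt_pow₀ h (by norm_num)
    linarith
  have hd : ‖x1 - x0‖ < 1 := by
    by_contra h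
    push Not at h
    have h3 : ‖X * (x1 - x0) ^ 2‖ ≤ 1 := by
      rw [hX]
      exact norm_add3 (norm_add3 (norm_add3 (norm_add3 (norm_mul3 hx0 (norm_pow3 hx1 2))
        (norm_mul3 (norm_pow3 hx0 2) hx1)) (norm_mul3 ha (norm_add3 hx1 hx0)))
        (norm_mul3 h2 hb)) (norm_mul3 (norm_mul3 h2 hy0) hy1)
    rw [norm_mul, norm_pow] at h3
    have h4 : (1 : ℝ) ≤ ‖x1 - x0‖ ^ 2 := one_le_pow₀ h
    nlinarith
  refine ⟨hd, ?_⟩
  by_contra h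
  push Not at h
  have hne' : (x1 - x0) ^ 2 ≠ 0 := pow_ne_zero _ (sub_ne_zero.2 hne)
  have h3 : X * (y1 - y0) ^ 2 = (x1 ^ 2 + x1 * x0 + x0 ^ 2 + a) ^ 2
      - (x1 + x0) * (y1 - y0) ^ 2 := by
    have h4 : (y1 - y0) * (y1 + y0) = (x1 - x0) * (x1 ^ 2 + x1 * x0 + x0 ^ 2 + a) := by
      linear_combination h1 - h0
    have h5 : X * (x1 - x0) ^ 2 = (y1 + y0) ^ 2 - (x1 + x0) * (x1 - x0) ^ 2 := by
      linear_combination hX - h1 - h0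
    apply mul_left_cancel₀ hne'
    linear_combination (y1 - y0) ^ 2 * h5 + ((y1 - y0) * (y1 + y0)
      + (x1 - x0) * (x1 ^ 2 + x1 * x0 + x0 ^ 2 + a)) * h4
  have hyy : ‖y1 - y0‖ ≤ 1 := norm_sub3 hy1 hy0
  have h4 : ‖X * (y1 - y0) ^ 2‖ ≤ 1 := by
    rw [h3]
    exact norm_sub3 (norm_pow3 (norm_add3 (norm_add3 (norm_add3 (norm_pow3 hx1 2)
      (norm_mul3 hx1 hx0)) (norm_pow3 hx0 2)) ha) 2)
      (norm_mul3 (norm_add3 hx1 hx0) (norm_pow3 hyy 2))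
  rw [norm_mul, norm_pow] at h4
  have h5 : (1 : ℝ) ≤ ‖y1 - y0‖ ^ 2 := one_le_pow₀ h
  nlinarith

end norms

/-- All but finitely many points over a number field are near to the origin. -/
theorem near_O (a b : ℂ) (ha : IsAlgebraic ℚ a) (hb : IsAlgebraic ℚ b)
    (hab : 4 * a ^ 3 + 27 * b ^ 2 ≠ 0) (E : IntermediateField ℚ ℂ) [FiniteDimensional ℚ E]
    (s : Finset ℂ) :
    {P : Fin 2 → ℂ | P ∈ aff a b ∧ (∀ i, P i ∈ E) ∧
      ¬ ∃ (p : ℕ) (_ : Fact p.Prime) (τ : ℂ →+* PadicAlgCl p),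
        (∀ y ∈ s, ‖τ y‖ ≤ 1) ∧ 1 < ‖τ (P 0)‖}.Finite := by
  classical
  have h1 := (near_elliptic a b ha hb hab E (s ∪ {a, b})).image
    (fun t : Fin 2 → ℂ => (![t 0 / t 1, 1 / t 1] : Fin 2 → ℂ))
  refine (h1.union (zero_finite a b)).subset ?_
  rintro P ⟨hP, hPE, hbad⟩
  by_cases hy : P 1 = 0
  · exact Or.inr ⟨hP, hy⟩
  left
  have hP' : P 1 ^ 2 = P 0 ^ 3 + a * P 0 + b := hP
  refine ⟨![P 0 / P 1, 1 / P 1], ⟨?_, ?_, ?_⟩, ?_⟩
  · change 1 / P 1 = (P 0 / P 1) ^ 3 + a * (P 0 / P 1) * (1 / P 1) ^ 2 + b * (1 / P 1) ^ 3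
    have h2 : (P 0 / P 1) ^ 3 + a * (P 0 / P 1) * (1 / P 1) ^ 2 + b * (1 / P 1) ^ 3
        = (P 0 ^ 3 + a * P 0 + b) / P 1 ^ 3 := by
      field_simp
    rw [h2, ← hP']
    field_simp
  · intro i
    fin_cases i
    · exact E.div_mem (hPE 0) (hPE 1)
    · exact E.div_mem E.one_mem (hPE 1)
  · rintro ⟨p, hp, τ, hτ, hlt⟩
    apply hbad
    refine ⟨p, hp, τ, fun y hy => hτ y (by simp [hy]), ?_⟩
    by_contra hx
    push Not at hx
    have h2 : ‖τ (P 1)‖ ^ 2 ≤ 1 := by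
      rw [← norm_pow, ← map_pow, hP', map_add, map_add, map_pow, map_mul]
      exact norm_add3 (norm_add3 (norm_pow3 hx 3) (norm_mul3 (hτ a (by simp)) hx))
        (hτ b (by simp))
    have h3 : ‖τ (1 / P 1 - 0)‖ < 1 := hlt
    rw [sub_zero, map_div₀, map_one, norm_div, norm_one] at h3
    have h4 : 0 < ‖τ (P 1)‖ := norm_pos_iff.2 ((map_ne_zero τ).2 hy)
    have h5 : 1 < ‖τ (P 1)‖ := by
      rwa [div_lt_one h4] at h3
    have h6 : (1 : ℝ) < ‖τ (P 1)‖ ^ 2 := one_lt_pow₀ h5 (by norm_num)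
    linarith
  · funext i
    fin_cases i
    · change (P 0 / P 1) / (1 / P 1) = P 0
      field_simp
    · change 1 / (1 / P 1) = P 1
      field_simp

/-- All but finitely many points over a number field are near to a given algebraic point. -/
theorem near_pt (a b : ℂ) (ha : IsAlgebraic ℚ a) (hb : IsAlgebraic ℚ b)
    (hab : 4 * a ^ 3 + 27 * b ^ 2 ≠ 0) (Q : Fin 2 → ℂ) (hQ : Q ∈ aff a b)
    (hQa : ∀ i, IsAlgebraic ℚ (Q i)) (E : IntermediateField ℚ ℂ) [FiniteDimensional ℚ E]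
    (s : Finset ℂ) :
    {P : Fin 2 → ℂ | P ∈ aff a b ∧ (∀ i, P i ∈ E) ∧
      ¬ ∃ (p : ℕ) (_ : Fact p.Prime) (τ : ℂ →+* PadicAlgCl p),
        (∀ y ∈ s, ‖τ y‖ ≤ 1) ∧ ∀ i, ‖τ (P i) - τ (Q i)‖ < 1}.Finite := by
  classical
  let A : IntermediateField ℚ ℂ := IntermediateField.adjoin ℚ (Set.range Q)
  have hA : FiniteDimensional ℚ A := IntermediateField.finiteDimensional_adjoin (by
    rintro z ⟨i, rfl⟩
    exact (hQa i).isIntegral)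
  let E' : IntermediateField ℚ ℂ := E ⊔ A
  have hE' : FiniteDimensional ℚ E' := IntermediateField.finiteDimensional_sup E A
  have hEE : ∀ z ∈ E, z ∈ E' := fun z hz => (le_sup_left : E ≤ E') hz
  have hQE : ∀ i, Q i ∈ E' := fun i => (le_sup_right : A ≤ E')
    (IntermediateField.subset_adjoin ℚ _ ⟨i, rfl⟩)
  have hQ' : Q 1 ^ 2 = Q 0 ^ 3 + a * Q 0 + b := hQ
  have hbadD := near_O a b ha hb hab E' (s ∪ {a, b, Q 0, Q 1})
  set S : Finset ℂ := s ∪ {a, b, Q 0, Q 1} with hS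
  have hF := hbadD.image fun P : Fin 2 → ℂ => P 0
  -- the exceptional abscissas
  have hZ : (⋃ X ∈ (fun P : Fin 2 → ℂ => P 0) '' {P : Fin 2 → ℂ | P ∈ aff a b ∧
      (∀ i, P i ∈ E') ∧ ¬ ∃ (p : ℕ) (_ : Fact p.Prime) (τ : ℂ →+* PadicAlgCl p),
        (∀ y ∈ S, ‖τ y‖ ≤ 1) ∧ 1 < ‖τ (P 0)‖},
      {x : ℂ | ((X - Q 0) * x ^ 2 - (2 * X * Q 0 + Q 0 ^ 2 + a) * x
        + (X * Q 0 ^ 2 - a * Q 0 - 2 * b)) ^ 2 - 4 * Q 1 ^ 2 * (x ^ 3 + a * x + b) = 0}).Finite := by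
    refine hF.biUnion fun X _ => quartic_finite _ _ _ _ _ _ ?_
    by_cases h1 : X - Q 0 = 0
    · right
      rw [h1]
      by_cases h2 : Q 1 = 0
      · right
        refine ⟨rfl, by rw [h2]; ring, ?_⟩
        have h3 : X = Q 0 := by linear_combination h1
        rw [h3]
        intro h4
        apply hab
        have h5 : a = -3 * Q 0 ^ 2 := by linear_combination h4
        have h6 : b = 2 * Q 0 ^ 3 := by
          rw [h2, h5] at hQ'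
          linear_combination -hQ'
        rw [h5, h6]
        ring
      · left
        have h3 : Q 1 ^ 2 ≠ 0 := pow_ne_zero _ h2
        intro h4
        apply h3
        linear_combination (1 / 4 : ℂ) * h4
    · exact Or.inl h1
  refine ((fibres_finite a b hZ).union (fibre_finite a b (Q 0))).subset ?_
  rintro P ⟨hP, hPE, hbad⟩
  by_cases hx : P 0 = Q 0
  · exact Or.inr ⟨hP, hx⟩
  left
  refine ⟨hP, ?_⟩
  have hP' : P 1 ^ 2 = P 0 ^ 3 + a * P 0 + b := hP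
  have hd : P 0 - Q 0 ≠ 0 := sub_ne_zero.2 hx
  -- the difference
  obtain ⟨l, hl⟩ : ∃ l : ℂ, l = (P 1 + Q 1) / (P 0 - Q 0) := ⟨_, rfl⟩
  have hl1 : l * (P 0 - Q 0) = P 1 + Q 1 := by
    rw [hl]
    field_simp
  obtain ⟨X, hXdef⟩ : ∃ X : ℂ, X = l ^ 2 - P 0 - Q 0 := ⟨_, rfl⟩
  obtain ⟨Y, hYdef⟩ : ∃ Y : ℂ, Y = l * (P 0 - X) - P 1 := ⟨_, rfl⟩
  have hXeq : X * (P 0 - Q 0) ^ 2 = Q 0 * P 0 ^ 2 + Q 0 ^ 2 * P 0 + a * (P 0 + Q 0) + 2 * b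
      + 2 * Q 1 * P 1 := by
    rw [hXdef]
    have h1 : l ^ 2 * (P 0 - Q 0) ^ 2 = (P 1 + Q 1) ^ 2 := by
      rw [← mul_pow, hl1]
    linear_combination h1 + hP' + hQ'
  have hD : (![X, Y] : Fin 2 → ℂ) ∈ aff a b := by
    change Y ^ 2 = X ^ 3 + a * X + b
    apply mul_left_cancel₀ hd
    rw [hYdef, hXdef]
    linear_combination (l ^ 2 - P 0 - Q 0 - Q 0) * hP' + (P 0 - (l ^ 2 - P 0 - Q 0)) * hQ'
      + (P 0 - (l ^ 2 - P 0 - Q 0)) * (Q 1 - P 1 + l * (P 0 - Q 0)) * hl1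
  have hlE : l ∈ E' := by
    rw [hl]
    exact E'.div_mem (E'.add_mem (hEE _ (hPE 1)) (hQE 1)) (E'.sub_mem (hEE _ (hPE 0)) (hQE 0))
  have hXE : X ∈ E' := by
    rw [hXdef]
    exact E'.sub_mem (E'.sub_mem (E'.pow_mem hlE 2) (hEE _ (hPE 0))) (hQE 0)
  have hYE : Y ∈ E' := by
    rw [hYdef]
    exact E'.sub_mem (E'.mul_mem hlE (E'.sub_mem (hEE _ (hPE 0)) hXE)) (hEE _ (hPE 1))
  refine Set.mem_biUnion (x := X) ⟨![X, Y], ⟨hD, ?_, ?_⟩, rfl⟩ ?_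
  · intro i
    fin_cases i
    · exact hXE
    · exact hYE
  · rintro ⟨p, hp, τ, hτ, hlt⟩
    apply hbad
    have hlt' : 1 < ‖τ X‖ := hlt
    have haτ : ‖τ a‖ ≤ 1 := hτ a (by simp [hS])
    have hbτ : ‖τ b‖ ≤ 1 := hτ b (by simp [hS])
    have h0τ : ‖τ (Q 0)‖ ≤ 1 := hτ (Q 0) (by simp [hS])
    have h1τ : ‖τ (Q 1)‖ ≤ 1 := hτ (Q 1) (by simp [hS])
    have e0 : τ (Q 1) ^ 2 = τ (Q 0) ^ 3 + τ a * τ (Q 0) + τ b := by
      rw [← map_pow, hQ', map_add, map_add, map_pow, map_mul]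
    have e1 : τ (P 1) ^ 2 = τ (P 0) ^ 3 + τ a * τ (P 0) + τ b := by
      rw [← map_pow, hP', map_add, map_add, map_pow, map_mul]
    have e2 := congrArg τ hXeq
    simp only [map_mul, map_add, map_pow, map_sub, map_ofNat] at e2
    obtain ⟨r1, r2⟩ := near_of_diff (τ a) (τ b) (τ (Q 0)) (τ (Q 1)) (τ (P 0)) (τ (P 1)) (τ X)
      haτ hbτ h0τ h1τ e0 e1 (fun h => hx (τ.injective h)) e2 hlt'
    refine ⟨p, hp, τ, fun y hy => hτ y (by simp [hS, hy]), fun i => ?_⟩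
    fin_cases i
    · exact r1
    · exact r2
  · change ((X - Q 0) * P 0 ^ 2 - (2 * X * Q 0 + Q 0 ^ 2 + a) * P 0
        + (X * Q 0 ^ 2 - a * Q 0 - 2 * b)) ^ 2 - 4 * Q 1 ^ 2 * (P 0 ^ 3 + a * P 0 + b) = 0
    have h1 : (X - Q 0) * P 0 ^ 2 - (2 * X * Q 0 + Q 0 ^ 2 + a) * P 0
        + (X * Q 0 ^ 2 - a * Q 0 - 2 * b) = 2 * Q 1 * P 1 := by
      linear_combination hXeq
    rw [h1, ← hP']
    ring

end Pool.Agent.Y199.SG
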