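import Pool.Agent.Y199.SG.Sq

/-!
Siegel's theorem on integral points on elliptic curves over number fields (helper file).
-/

set_option autoImplicit false

namespace Pool.Agent.Y199.SG

open NumberField IsDedekindDomain WithZero Pool.Agent.Y199.DM
open Pool.Agent.Helper259.AbsHt
open Pool.Agent.Y556.TW (Ov mem_Ov bad_finite GS GS_fg mem_GS unit_eq)

section

variable {L : IntermediateField ℚ Qbar} [NumberField L]

/-- An element which is integral at the places over the large primes is integral up to a power of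
`D!`. -/
theorem int_of_val (D : ℕ) (x : L) (h : ∀ v : HeightOneSpectrum (𝓞 L),
    (∀ p : ℕ, p.Prime → p ≤ D → ¬ v.valuation L (p : L) < 1) → v.valuation L x ≤ 1) :
    ∃ k : ℕ, IsIntegral ℤ (((D.factorial : ℕ) : L) ^ k * x) := by
  classical
  by_cases hx : x = 0
  · exact ⟨0, by rw [hx, mul_zero]; exact isIntegral_zero⟩
  have hS := finite_small (L := L) D
  let k : ℕ := ∑ v ∈ hS.toFinset, (log (v.valuation L x)).toNat
  refine ⟨k, ?_⟩
  have h1 : ∀ v : HeightOneSpectrum (𝓞 L), v.valuation L (((D.factorial : ℕ) : L) ^ k * x) ≤ 1 := by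
    intro v
    have hD1 : v.valuation L ((D.factorial : ℕ) : L) ≤ 1 := by
      exact_mod_cast val_int_le v D.factorial
    by_cases hv : v ∈ {v : HeightOneSpectrum (𝓞 L) |
        ∃ p : ℕ, p.Prime ∧ p ≤ D ∧ v.valuation L (p : L) < 1}
    · obtain ⟨p, hp, hpD, hvp⟩ := hv
      have hvx : v.valuation L x ≠ 0 := by
        rw [Ne, map_eq_zero]
        exact hx
      have h2 : v.valuation L ((D.factorial : ℕ) : L) < 1 := by
        obtain ⟨c, hc⟩ := (hp.dvd_factorial).2 hpD
        rw [hc, Nat.cast_mul, map_mul]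
        refine lt_of_le_of_lt ?_ hvp
        have h3 : v.valuation L ((c : ℕ) : L) ≤ 1 := by exact_mod_cast val_int_le v c
        exact (mul_le_mul' le_rfl h3).trans_eq (mul_one _)
      have h4 : v.valuation L ((D.factorial : ℕ) : L) ≠ 0 := by
        rw [Ne, map_eq_zero]
        exact_mod_cast D.factorial_ne_zero
      obtain ⟨a, ha⟩ : ∃ a : ℤ, v.valuation L ((D.factorial : ℕ) : L) = exp a :=
        ⟨_, (exp_log h4).symm⟩
      obtain ⟨b, hb⟩ : ∃ b : ℤ, v.valuation L x = exp b := ⟨_, (exp_log hvx).symm⟩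
      have ha1 : a < 0 := by
        rw [ha, ← exp_zero, exp_lt_exp] at h2
        exact h2
      have hk : b.toNat ≤ k := by
        have h5 : (log (v.valuation L x)).toNat ≤ k :=
          Finset.single_le_sum (f := fun v : HeightOneSpectrum (𝓞 L) =>
            (log (v.valuation L x)).toNat) (fun _ _ => Nat.zero_le _)
            ((Set.Finite.mem_toFinset hS).2 ⟨p, hp, hpD, hvp⟩)
        rw [hb, log_exp] at h5
        exact h5
      rw [map_mul, map_pow, ha, hb, ← exp_nsmul, ← exp_add, ← exp_zero, exp_le_exp, nsmul_eq_mul]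
      have h6 : b ≤ (k : ℤ) := (Int.self_le_toNat b).trans (by exact_mod_cast hk)
      have h7 : (k : ℤ) * a ≤ -(k : ℤ) := by nlinarith
      linarith
    · have h2 := h v (fun p hp hpD hlt => hv ⟨p, hp, hpD, hlt⟩)
      rw [map_mul, map_pow]
      exact mul_le_one' (pow_le_one' hD1 k) h2
  obtain ⟨z, hz⟩ := HeightOneSpectrum.mem_integers_of_valuation_le_one (R := 𝓞 L) L _ h1
  rw [← hz]
  exact RingOfIntegers.isIntegral_coe z

theorem good_places (e : Fin 3 → L) (he : Function.Injective e) (N : ℕ) (hN : 1 ≤ N) :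
    ∃ S : Set (HeightOneSpectrum (𝓞 L)), S.Finite ∧ ∀ v, v ∉ S → v.valuation L (N : L) = 1 ∧
      (∀ i, v.valuation L (e i) ≤ 1) ∧ ∀ i j, i ≠ j → v.valuation L (e i - e j) = 1 := by
  classical
  let B : Set Qbar := (Set.range fun i => ((e i : L) : Qbar)) ∪
    Set.range fun q : Fin 3 × Fin 3 => (((e q.1 - e q.2)⁻¹ : L) : Qbar)
  have hB : B.Finite := (Set.finite_range _).union (Set.finite_range _)
  have hBL : ∀ w ∈ B, w ∈ L := by
    rintro w (⟨i, rfl⟩ | ⟨q, rfl⟩)
    · exact (e i).2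
    · exact ((e q.1 - e q.2)⁻¹ : L).2
  refine ⟨_, (finite_small (L := L) N).union (bad_finite B hB hBL), fun v hv => ?_⟩
  have hv1 : ∀ p : ℕ, p.Prime → p ≤ N → ¬ v.valuation L (p : L) < 1 :=
    fun p hp hpN hlt => hv (Or.inl ⟨p, hp, hpN, hlt⟩)
  have hv2 : ∀ w : L, (w : Qbar) ∈ B → v.valuation L w ≤ 1 := by
    intro w hw
    by_contra h
    exact hv (Or.inr ⟨_, hw, fun h2 => h ((mem_Ov _).1 h2)⟩)
  refine ⟨val_eq_one v N hv1 N (by omega) le_rfl, fun i => hv2 _ (Or.inl ⟨i, rfl⟩),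
    fun i j hij => le_antisymm ?_ ?_⟩
  · exact (Valuation.map_sub _ _ _).trans
      (max_le (hv2 _ (Or.inl ⟨i, rfl⟩)) (hv2 _ (Or.inl ⟨j, rfl⟩)))
  · have h1 := hv2 _ (Or.inr ⟨(i, j), rfl⟩)
    have h2 : e i - e j ≠ 0 := sub_ne_zero.2 (he.ne hij)
    have h3 : v.valuation L (e i - e j) ≠ 0 := by
      rw [Ne, map_eq_zero]
      exact h2
    rw [map_inv₀] at h1
    exact (inv_le_one₀ (zero_lt_iff.2 h3)).1 h1

theorem val_le_of_int (v : HeightOneSpectrum (𝓞 L)) {N k : ℕ} {x : L}
    (hN : v.valuation L (N : L) = 1) (hx : IsIntegral ℤ ((N : L) ^ k * x)) :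
    v.valuation L x ≤ 1 := by
  have h := val_le_of_isIntegral v hx
  rw [map_mul, map_pow, hN, one_pow, one_mul] at h
  exact h

/-- **Siegel's theorem** for elliptic curves with rational `2`-torsion. -/
theorem siegel (e : Fin 3 → L) (he : Function.Injective e) (N : ℕ) (hN : 1 ≤ N) :
    {x : L | (∃ k : ℕ, IsIntegral ℤ ((N : L) ^ k * x)) ∧
      ∃ y : L, y ^ 2 = (x - e 0) * (x - e 1) * (x - e 2)}.Finite := by
  classical
  obtain ⟨S, hS, hSv⟩ := good_places e he N hN
  obtain ⟨M, hM, hLM, hsq⟩ := exists_sqrt_field (L := L) S hS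
  let e' : Fin 3 → M := fun i => ⟨e i, hLM (e i).2⟩
  have he' : Function.Injective e' := by
    intro i j hij
    have h1 : ((e i : L) : Qbar) = e j := congrArg (fun z : M => (z : Qbar)) hij
    exact he (Subtype.ext h1)
  obtain ⟨T, hT, hTv⟩ := good_places e' he' N hN
  have hfin := unit_eq (GS T) (GS_fg T hT)
  set Λ := {u : Qbar | ∃ v ∈ GS T, ∃ w ∈ GS T, u = v ∧ (v : Qbar) + w = 1} with hΛ
  let f : Qbar → Qbar → Qbar := fun l m =>
    e 0 + (l + m) ^ 2 * ((e 1 : Qbar) - e 0) / (4 * (l * m))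
  have hfin2 : {x : L | (x : Qbar) ∈ Set.image2 f Λ Λ}.Finite :=
    (hfin.image2 f hfin).preimage (Subtype.val_injective.injOn)
  refine (hfin2.union (Set.finite_range e)).subset ?_
  rintro x ⟨⟨k, hk⟩, y, hy⟩
  by_cases hxe : x ∈ Set.range e
  · exact Or.inr hxe
  refine Or.inl ?_
  have ha0 : ∀ i, x - e i ≠ 0 := fun i h => hxe ⟨i, (sub_eq_zero.1 h).symm⟩
  -- the square roots
  have hpar : ∀ i, ∀ v, v ∉ S → ∃ g, v.valuation L (x - e i) = g ^ 2 := by
    intro i v hv
    obtain ⟨h1, h2, h3⟩ := hSv v hv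
    have hx1 : v.valuation L x ≤ 1 := val_le_of_int v h1 hk
    have hle : ∀ i, v.valuation L (x - e i) ≤ 1 := fun i =>
      (Valuation.map_sub _ _ _).trans (max_le hx1 (h2 i))
    by_cases h4 : v.valuation L (x - e i) = 1
    · exact ⟨1, by rw [h4, one_pow]⟩
    have h5 : ∀ j, j ≠ i → v.valuation L (x - e j) = 1 := by
      intro j hj
      by_contra h6
      have h7 : v.valuation L ((x - e i) - (x - e j)) < 1 :=
        lt_of_le_of_lt (Valuation.map_sub _ _ _)
          (max_lt (lt_of_le_of_ne (hle i) h4) (lt_of_le_of_ne (hle j) h6))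
      have h8 : (x - e i) - (x - e j) = e j - e i := by ring
      rw [h8, h3 j i hj] at h7
      exact lt_irrefl _ h7
    refine ⟨v.valuation L y, ?_⟩
    rw [← map_pow, hy, map_mul, map_mul]
    fin_cases i
    · have h6 := h5 1 (by decide)
      have h7 := h5 2 (by decide)
      simp only [Fin.zero_eta, Fin.mk_one, Fin.reduceFinMk] at h6 h7 ⊢
      rw [h6, h7, mul_one, mul_one]
    · have h6 := h5 0 (by decide)
      have h7 := h5 2 (by decide)
      simp only [Fin.zero_eta, Fin.mk_one, Fin.reduceFinMk] at h6 h7 ⊢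
      rw [h6, h7, mul_one, one_mul]
    · have h6 := h5 0 (by decide)
      have h7 := h5 1 (by decide)
      simp only [Fin.zero_eta, Fin.mk_one, Fin.reduceFinMk] at h6 h7 ⊢
      rw [h6, h7, one_mul, one_mul]
  choose m hmM hm using fun i => hsq (x - e i) (ha0 i) (hpar i)
  let m' : Fin 3 → M := fun i => ⟨m i, hmM i⟩
  let x' : M := ⟨x, hLM x.2⟩
  have hm' : ∀ i, m' i ^ 2 = x' - e' i := by
    intro i
    apply Subtype.ext
    have := hm i
    push_cast at this ⊢
    exact this
  have hk' : IsIntegral ℤ ((N : M) ^ k * x') := by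
    have h1 : IsIntegral ℤ ((algebraMap L Qbar) ((N : L) ^ k * x)) := hk.map
      (algebraMap L Qbar).toIntAlgHom
    have h2 : (algebraMap L Qbar) ((N : L) ^ k * x) =
        (algebraMap M Qbar) ((N : M) ^ k * x') := by
      rw [map_mul, map_pow, map_natCast, map_mul, map_pow, map_natCast]
      rfl
    rw [h2] at h1
    exact (isIntegral_algHom_iff (algebraMap M Qbar).toIntAlgHom
      (algebraMap M Qbar).injective).1 h1
  have hval : ∀ w, w ∉ T → ∀ i j, i ≠ j → w.valuation M (m' i - m' j) = 1 ∧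
      w.valuation M (m' i + m' j) = 1 := by
    intro w hw i j hij
    obtain ⟨h1, h2, h3⟩ := hTv w hw
    have hx1 : w.valuation M x' ≤ 1 := val_le_of_int w h1 hk'
    have hle : ∀ i, w.valuation M (m' i) ≤ 1 := by
      intro i
      have h4 : w.valuation M (m' i) ^ 2 ≤ 1 := by
        rw [← map_pow, hm']
        exact (Valuation.map_sub _ _ _).trans (max_le hx1 (h2 i))
      exact (pow_le_one_iff two_ne_zero).1 h4
    have h5 : w.valuation M (m' i - m' j) * w.valuation M (m' i + m' j) = 1 := by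
      rw [← map_mul]
      have h6 : (m' i - m' j) * (m' i + m' j) = e' j - e' i := by
        have h7 := hm' i
        have h8 := hm' j
        linear_combination h7 - h8
      rw [h6, h3 j i hij.symm]
    have h6 : w.valuation M (m' i - m' j) ≤ 1 :=
      (Valuation.map_sub _ _ _).trans (max_le (hle i) (hle j))
    have h7 : w.valuation M (m' i + m' j) ≤ 1 :=
      (Valuation.map_add _ _ _).trans (max_le (hle i) (hle j))
    refine ⟨le_antisymm h6 ?_, le_antisymm h7 ?_⟩
    · rw [← h5]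
      exact (mul_le_mul' le_rfl h7).trans_eq (mul_one _)
    · rw [← h5]
      exact (mul_le_mul' h6 le_rfl).trans_eq (one_mul _)
  have hne : ∀ i j, i ≠ j → m' i - m' j ≠ 0 ∧ m' i + m' j ≠ 0 := by
    intro i j hij
    have h6 : (m' i - m' j) * (m' i + m' j) = e' j - e' i := by
      have h7 := hm' i
      have h8 := hm' j
      linear_combination h7 - h8
    have h7 : (m' i - m' j) * (m' i + m' j) ≠ 0 := by
      rw [h6]
      exact sub_ne_zero.2 (he'.ne hij.symm)
    exact ⟨left_ne_zero_of_mul h7, right_ne_zero_of_mul h7⟩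
  have hn02 := (hne 0 2 (by decide)).1
  have hmemΛ : ∀ r : M, r ≠ 0 → 1 - r ≠ 0 → (∀ w, w ∉ T → w.valuation M r = 1) →
      (∀ w, w ∉ T → w.valuation M (1 - r) = 1) → (r : Qbar) ∈ Λ := by
    intro r hr hr' h1 h2
    refine ⟨_, mem_GS' hr h1, _, mem_GS' hr' h2, ?_, ?_⟩
    · rw [Units.val_mk0]
    · rw [Units.val_mk0, Units.val_mk0]
      push_cast
      ring
  let lam : M := (m' 0 - m' 1) / (m' 0 - m' 2)
  let mu : M := (m' 0 + m' 1) / (m' 0 - m' 2)
  have hlam : (lam : Qbar) ∈ Λ := by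
    have h1 : 1 - lam = (m' 1 - m' 2) / (m' 0 - m' 2) := by
      simp only [lam]
      field_simp
      ring
    refine hmemΛ lam (div_ne_zero (hne 0 1 (by decide)).1 hn02) ?_ (fun w hw => ?_)
      (fun w hw => ?_)
    · rw [h1]
      exact div_ne_zero (hne 1 2 (by decide)).1 hn02
    · rw [map_div₀, (hval w hw 0 1 (by decide)).1, (hval w hw 0 2 (by decide)).1, div_one]
    · rw [h1, map_div₀, (hval w hw 1 2 (by decide)).1, (hval w hw 0 2 (by decide)).1, div_one]
  have hmu : (mu : Qbar) ∈ Λ := by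
    have h1 : 1 - mu = -((m' 1 + m' 2) / (m' 0 - m' 2)) := by
      simp only [mu]
      field_simp
      ring
    refine hmemΛ mu (div_ne_zero (hne 0 1 (by decide)).2 hn02) ?_ (fun w hw => ?_)
      (fun w hw => ?_)
    · rw [h1]
      exact neg_ne_zero.2 (div_ne_zero (hne 1 2 (by decide)).2 hn02)
    · rw [map_div₀, (hval w hw 0 1 (by decide)).2, (hval w hw 0 2 (by decide)).1, div_one]
    · rw [h1, Valuation.map_neg, map_div₀, (hval w hw 1 2 (by decide)).2,
        (hval w hw 0 2 (by decide)).1, div_one]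
  refine ⟨lam, hlam, mu, hmu, ?_⟩
  have h10 : e' 1 - e' 0 ≠ 0 := sub_ne_zero.2 (he'.ne (by decide))
  have h01 := hne 0 1 (by decide)
  have key : e' 0 + (lam + mu) ^ 2 * (e' 1 - e' 0) / (4 * (lam * mu)) = x' := by
    have h1 : lam + mu = 2 * m' 0 / (m' 0 - m' 2) := by
      simp only [lam, mu]
      field_simp
      ring
    have h2 : lam * mu = (e' 1 - e' 0) / (m' 0 - m' 2) ^ 2 := by
      have h3 : (m' 0 - m' 1) * (m' 0 + m' 1) = e' 1 - e' 0 := by
        have h7 := hm' 0
        have h8 := hm' 1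
        linear_combination h7 - h8
      simp only [lam, mu]
      rw [div_mul_div_comm, h3, pow_two]
    rw [h1, h2]
    have h3 := hm' 0
    have h4 : (2 * m' 0 / (m' 0 - m' 2)) ^ 2 * (e' 1 - e' 0) /
        (4 * ((e' 1 - e' 0) / (m' 0 - m' 2) ^ 2)) = m' 0 ^ 2 := by
      field_simp
      ring
    rw [h4, h3]
    ring
  have key2 := congrArg (fun z : M => (z : Qbar)) key
  simp only [f]
  have h5 : (((e' 0 + (lam + mu) ^ 2 * (e' 1 - e' 0) / (4 * (lam * mu)) : M)) : Qbar) =
      (e 0 : Qbar) + ((lam : Qbar) + mu) ^ 2 * ((e 1 : Qbar) - e 0) /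
        (4 * ((lam : Qbar) * mu)) := by
    push_cast
    rfl
  rw [← h5]
  exact key2

end

end Pool.Agent.Y199.SG
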