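import Pool.Agent.Y199.DM.NfT

/-!
Siegel's theorem on integral points on elliptic curves, part 1: elements of number fields with even
valuations (helper file).
-/

set_option autoImplicit false

namespace Pool.Agent.Y199.SG

open NumberField IsDedekindDomain WithZero
open Pool.Agent.Helper259.AbsHt

theorem exists_sq_mul {R : Type*} [CommRing R] [IsDedekindDomain R] (I : Ideal R) (hI : I ≠ 0) :
    ∃ J Q : Ideal R, I = J ^ 2 * Q ∧ Squarefree Q := by
  classical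
  induction I using UniqueFactorizationMonoid.induction_on_prime with
  | h₁ => exact absurd rfl hI
  | h₂ x hx => exact ⟨1, x, by rw [one_pow, one_mul], hx.squarefree⟩
  | h₃ a p ha hp ih =>
    obtain ⟨J, Q, hJ, hQ⟩ := ih ha
    by_cases hdvd : p ∣ Q
    · obtain ⟨Q', rfl⟩ := hdvd
      exact ⟨J * p, Q', by rw [hJ]; ring, hQ.squarefree_of_dvd (dvd_mul_left _ _)⟩
    · refine ⟨J, p * Q, by rw [hJ]; ring, ?_⟩
      rw [squarefree_mul_iff]
      exact ⟨hp.irreducible.isRelPrime_iff_not_dvd.2 hdvd, hp.irreducible.squarefree, hQ⟩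

section

variable {L : IntermediateField ℚ Qbar} [NumberField L]

theorem val_eq (v : HeightOneSpectrum (𝓞 L)) {z : 𝓞 L} (hz : z ≠ 0) :
    v.valuation L (z : L) =
      exp (-(multiplicity v.asIdeal (Ideal.span {z}) : ℤ)) := by
  rw [← v.intValuation_eq_exp_neg_multiplicity hz, ← v.valuation_of_algebraMap (K := L)]

theorem exists_rep : ∃ (n : ℕ) (I : Fin n → Ideal (𝓞 L)), (∀ j, I j ≠ 0) ∧
    ∀ J : Ideal (𝓞 L), J ≠ 0 → ∃ j, ∃ b : 𝓞 L, b ≠ 0 ∧ J * I j = Ideal.span {b} := by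
  classical
  obtain ⟨n, ⟨e⟩⟩ : ∃ n, Nonempty (ClassGroup (𝓞 L) ≃ Fin n) := ⟨_, ⟨Fintype.equivFin _⟩⟩
  choose r hr using ClassGroup.mk0_surjective (R := 𝓞 L)
  refine ⟨n, fun j => (r (e.symm j) : Ideal (𝓞 L)), fun j => ?_, fun J hJ => ?_⟩
  · exact nonZeroDivisors.coe_ne_zero _
  · let J0 : nonZeroDivisors (Ideal (𝓞 L)) := ⟨J, mem_nonZeroDivisors_iff_ne_zero.2 hJ⟩
    refine ⟨e (ClassGroup.mk0 J0)⁻¹, ?_⟩
    simp only [Equiv.symm_apply_apply]
    have h1 : ClassGroup.mk0 (J0 * r (ClassGroup.mk0 J0)⁻¹) = 1 := by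
      rw [map_mul, hr, mul_inv_cancel]
    have h2 := (ClassGroup.mk0_eq_one_iff (J0 * r (ClassGroup.mk0 J0)⁻¹).2).1 h1
    obtain ⟨b, hb⟩ := (Submodule.isPrincipal_iff _).1 h2
    refine ⟨b, ?_, hb⟩
    rintro rfl
    have h3 : ((J0 * r (ClassGroup.mk0 J0)⁻¹ : nonZeroDivisors (Ideal (𝓞 L))) :
        Ideal (𝓞 L)) = 0 := by
      rw [hb]
      simp
    exact nonZeroDivisors.coe_ne_zero _ h3

theorem exists_unit_mul_sq (S : Set (HeightOneSpectrum (𝓞 L))) (hS : S.Finite) :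
    ∃ S' : Set (HeightOneSpectrum (𝓞 L)), S'.Finite ∧ ∀ a : L, a ≠ 0 →
      (∀ v, v ∉ S → ∃ g, v.valuation L a = g ^ 2) →
      ∃ b : L, b ≠ 0 ∧ ∀ v, v ∉ S' → v.valuation L (a / b ^ 2) = 1 := by
  classical
  obtain ⟨n, I, hI0, hI⟩ := exists_rep (L := L)
  refine ⟨S ∪ ⋃ j, {v | v.asIdeal ∣ I j}, hS.union (Set.finite_iUnion fun j =>
    Ideal.finite_factors (hI0 j)), fun a ha hav => ?_⟩
  -- reduction to integral elements
  obtain ⟨x, y, hy, hxy⟩ := IsFractionRing.div_surjective (A := 𝓞 L) a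
  have hy0 : y ≠ 0 := nonZeroDivisors.ne_zero hy
  have hy0' : (y : L) ≠ 0 := by
    intro h
    exact hy0 (RingOfIntegers.coe_eq_zero_iff.1 h)
  have hx0 : x ≠ 0 := by
    rintro rfl
    apply ha
    rw [← hxy, map_zero, zero_div]
  have hz0 : x * y ≠ 0 := mul_ne_zero hx0 hy0
  have hza : ((x * y : 𝓞 L) : L) = a * (y : L) ^ 2 := by
    rw [← hxy]
    have h1 : (algebraMap (𝓞 L) L y) = (y : L) := rfl
    have h2 : (algebraMap (𝓞 L) L x) = (x : L) := rfl
    rw [h1, h2]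
    have h3 : ((x : 𝓞 L) : L) * (y : L) = (x : L) / (y : L) * (y : L) ^ 2 := by
      field_simp
    exact h3
  obtain ⟨J, Q, hJQ, hQ⟩ := exists_sq_mul (Ideal.span {x * y}) (by
    rw [Ne, Ideal.zero_eq_bot, Ideal.span_singleton_eq_bot]
    exact hz0)
  have hI0' : Ideal.span {x * y} ≠ 0 := by
    rw [Ne, Ideal.zero_eq_bot, Ideal.span_singleton_eq_bot]
    exact hz0
  have hJ0 : J ≠ 0 := by
    rintro rfl
    rw [zero_pow two_ne_zero, zero_mul] at hJQ
    exact hI0' hJQ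
  have hQ0 : Q ≠ 0 := by
    rintro rfl
    rw [mul_zero] at hJQ
    exact hI0' hJQ
  obtain ⟨j, b, hb0, hb⟩ := hI J hJ0
  have hb0' : (b : L) ≠ 0 := fun h => hb0 (RingOfIntegers.coe_eq_zero_iff.1 h)
  refine ⟨(b : L) / y, div_ne_zero hb0' hy0', fun v hv => ?_⟩
  have hvS : v ∉ S := fun h => hv (Or.inl h)
  have hvI : ¬ v.asIdeal ∣ I j := fun h => hv (Or.inr (Set.mem_iUnion.2 ⟨j, h⟩))
  have hP : Prime v.asIdeal := v.prime
  have hfin : ∀ K : Ideal (𝓞 L), K ≠ 0 → FiniteMultiplicity v.asIdeal K :=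
    fun K hK => FiniteMultiplicity.of_prime_left hP hK
  have hspb : Ideal.span {b} ≠ 0 := by
    rw [Ne, Ideal.zero_eq_bot, Ideal.span_singleton_eq_bot]
    exact hb0
  have hmul : ∀ K K' : Ideal (𝓞 L), K ≠ 0 → K' ≠ 0 → multiplicity v.asIdeal (K * K') =
      multiplicity v.asIdeal K + multiplicity v.asIdeal K' :=
    fun K K' hK hK' => multiplicity_mul hP (hfin _ (mul_ne_zero hK hK'))
  -- the multiplicities
  have h1 : Ideal.span {x * y} * (I j) ^ 2 = (Ideal.span {b}) ^ 2 * Q := by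
    rw [hJQ, ← hb]
    ring
  have h2 := congrArg (multiplicity v.asIdeal) h1
  rw [hmul _ _ hI0' (pow_ne_zero 2 (hI0 j)), hmul _ _ (pow_ne_zero 2 hspb) hQ0, pow_two, pow_two,
    hmul _ _ (hI0 j) (hI0 j), hmul _ _ hspb hspb] at h2
  have h3 : multiplicity v.asIdeal (I j) = 0 := multiplicity_eq_zero.2 hvI
  have h4 : multiplicity v.asIdeal Q ≤ 1 := by
    by_contra h
    push Not at h
    have h5 : v.asIdeal ^ 2 ∣ Q := pow_dvd_of_le_multiplicity h
    rw [pow_two] at h5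
    exact hP.not_unit (hQ _ h5)
  -- parity
  have hvz := val_eq v hz0
  have hvb := val_eq v hb0
  obtain ⟨g, hg⟩ := hav v hvS
  have h5 : v.valuation L ((x * y : 𝓞 L) : L) = (g * v.valuation L (y : L)) ^ 2 := by
    rw [hza, map_mul, map_pow, hg, mul_pow]
  have h6 : (g * v.valuation L (y : L)) ≠ 0 := by
    intro h
    rw [h, zero_pow two_ne_zero, map_eq_zero] at h5
    exact hz0 (RingOfIntegers.coe_eq_zero_iff.1 h5)
  obtain ⟨k, hk⟩ : ∃ k : ℤ, g * v.valuation L (y : L) = exp k := ⟨log _, (exp_log h6).symm⟩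
  rw [hk, ← exp_nsmul, hvz, exp_inj] at h5
  have h7 : v.valuation L ((x * y : 𝓞 L) : L) = v.valuation L (b : L) ^ 2 := by
    rw [hvz, hvb, ← exp_nsmul, exp_inj]
    simp only [nsmul_eq_mul, Nat.cast_ofNat] at h5 ⊢
    omega
  have h8 : v.valuation L (y : L) ≠ 0 := by
    rw [Ne, map_eq_zero]
    exact hy0'
  have h9 : v.valuation L (b : L) ≠ 0 := by
    rw [Ne, map_eq_zero]
    exact hb0'
  have h10 : a / ((b : L) / y) ^ 2 = ((x * y : 𝓞 L) : L) / (b : L) ^ 2 := by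
    rw [hza]
    field_simp
  rw [h10, map_div₀, map_pow, h7, div_self (pow_ne_zero 2 h9)]

/-- The square roots of the elements with even valuations outside a finite set are in a number
field. -/
theorem exists_sqrt_field (S : Set (HeightOneSpectrum (𝓞 L))) (hS : S.Finite) :
    ∃ (M : IntermediateField ℚ Qbar) (_ : NumberField M), L ≤ M ∧ ∀ a : L, a ≠ 0 →
      (∀ v, v ∉ S → ∃ g, v.valuation L a = g ^ 2) → ∃ m ∈ M, m ^ 2 = (a : Qbar) := by
  classical
  obtain ⟨S', hS', h1⟩ := exists_unit_mul_sq (L := L) S hS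
  obtain ⟨T, hT⟩ := Pool.Agent.H39R3.Tor.sunit_fg L S' hS'
  have hsq : ∀ z : Qbar, ∃ w : Qbar, w ^ 2 = z := fun z => IsAlgClosed.exists_pow_nat_eq z two_pos
  choose sq hsq using hsq
  obtain ⟨M0, hM0, hmem⟩ := Pool.Agent.Helper259.AbsHt.exists_nf
    ((fun u : Lˣ => sq ((u : L) : Qbar)) '' (T : Set Lˣ)) (T.finite_toSet.image _)
  let M : IntermediateField ℚ Qbar := L ⊔ M0
  haveI : FiniteDimensional ℚ L := inferInstance
  haveI : FiniteDimensional ℚ M0 := inferInstance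
  haveI hfd : FiniteDimensional ℚ M := IntermediateField.finiteDimensional_sup L M0
  refine ⟨M, ⟨⟩, le_sup_left, fun a ha hav => ?_⟩
  -- the units which are squares
  let H : Subgroup Lˣ :=
    { carrier := {u | ∃ m ∈ M, m ^ 2 = ((u : L) : Qbar)}
      mul_mem' := by
        rintro u w ⟨m, hm, hm2⟩ ⟨m', hm', hm2'⟩
        refine ⟨m * m', M.mul_mem hm hm', ?_⟩
        rw [mul_pow, hm2, hm2']
        push_cast
        rfl
      one_mem' := ⟨1, M.one_mem, by simp⟩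
      inv_mem' := by
        rintro u ⟨m, hm, hm2⟩
        refine ⟨m⁻¹, M.inv_mem hm, ?_⟩
        rw [inv_pow, hm2]
        push_cast
        rfl }
  have hH : S'.unit L ≤ H := by
    rw [← hT, Subgroup.closure_le]
    intro u hu
    exact ⟨sq ((u : L) : Qbar), (le_sup_right : M0 ≤ M) (hmem _ ⟨u, hu, rfl⟩), hsq _⟩
  obtain ⟨b, hb0, hb⟩ := h1 a ha hav
  have hu0 : a / b ^ 2 ≠ 0 := div_ne_zero ha (pow_ne_zero 2 hb0)
  have hu : Units.mk0 (a / b ^ 2) hu0 ∈ S'.unit L := by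
    intro v hv
    exact hb v hv
  obtain ⟨m, hm, hm2⟩ := hH hu
  refine ⟨m * b, M.mul_mem hm ((le_sup_left : L ≤ M) b.2), ?_⟩
  have hb0' : (b : Qbar) ≠ 0 := fun h => hb0 (Subtype.ext h)
  rw [mul_pow, hm2, Units.val_mk0]
  push_cast
  field_simp

end

end Pool.Agent.Y199.SG
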