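import Pool.Agent.Y199.SG.ZPY

/-!
Families with elliptic parameters in `Y(1)^n` (helper file).
-/

set_option autoImplicit false

namespace Pool.Agent.Y199.SG.ZPY

open MvPolynomial

theorem alg_eval (K : Subfield ℂ) (q : MvPolynomial (Fin 2) ℂ) (P : Fin 2 → ℂ)
    (hq : ∀ k, IsAlgebraic ℚ (q.coeff k)) (hP : ∀ i, IsAlgebraic ℚ (P i)) :
    eval P q ∈ algebraicClosure K ℂ := by
  have h : ∀ z : ℂ, IsAlgebraic ℚ z → z ∈ algebraicClosure K ℂ := fun z hz =>
    mem_algebraicClosure_iff'.2 hz.isIntegral.tower_top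
  rw [eval_eq]
  exact sum_mem fun d _ => mul_mem (h _ (hq d)) (prod_mem fun i _ => pow_mem (h _ (hP i)) _)

theorem alg_value (K : Subfield ℂ) (u v : MvPolynomial (Fin 2) ℂ) (P : Fin 2 → ℂ)
    (hu : ∀ k, IsAlgebraic ℚ (u.coeff k)) (hv : ∀ k, IsAlgebraic ℚ (v.coeff k))
    (hP : ∀ i, IsAlgebraic ℚ (P i)) : IsAlgebraic K (eval P u / eval P v) := by
  have h := div_mem (alg_eval K u P hu hP) (alg_eval K v P hv hP)
  exact (mem_algebraicClosure_iff'.1 h).isAlgebraic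

end Pool.Agent.Y199.SG.ZPY
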