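import Pool.Agent.Y199.SG.ZPL
import Pool.Agent.Y199.ZF.Rat

/-!
Families of subsets of `Y(1)^n` over the line: points with integral coordinates, the criterion for one
parameter (helper file; the proof follows helper910's result `MP_d83ecd_ag.FinitelyGeneratedFields`).
-/

set_option autoImplicit false

namespace Pool.Agent.Y199.SG.ZPY

open H294ZP UpperHalfPlane MvPolynomial Pool.Agent.W282.ZP Pool.Agent.Y152.BD Pool.Agent.Y910.Z
  Pool.Agent.Y199.SG

/-- The criterion for one parameter. -/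
theorem lineCore (K : Subfield ℂ) [Countable K] (κ : Type) [Finite κ] (N n m T : ℕ)
    (G : κ → MvPolynomial (Fin (N + 1)) (Polynomial K)) (hG : ∀ k, ∃ e, (G k).IsHomogeneous e)
    (A B : Fin n → MvPolynomial (Fin (N + 1)) (Polynomial K)) (δ : Fin n → ℕ)
    (hA : ∀ i, (A i).IsHomogeneous (δ i)) (hB : ∀ i, (B i).IsHomogeneous (δ i))
    (R : Fin n → Polynomial (Polynomial K)) (hR : ∀ i, (R i).Monic)
    (hT : ∀ i u w, ((R i).coeff u).coeff w ≠ 0 → u ≤ T ∧ w ≤ T)
    (c : Fin n → Polynomial K) (D₀ : Finset ℂ) (hD₀ : ∀ α ∈ D₀, IsAlgebraic K α)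
    (hord₀ : ∀ α ∈ D₀, ∀ i, 0 < order (c i) α) (hpos₀ : ∀ α ∈ D₀, InGeneralPosition α m G A B)
    (Γ : Finset ℂ) (hΓ : ∀ γ ∈ Γ, IsAlgebraic K γ) :
    ∃ W₁ : Finset ℂ, ∀ t : ℂ, IsAlgebraic K t → (∃ α ∈ D₀, ∃ V : ValuationSubring ℂ,
      (∀ z ∈ W₁, z ∈ V) ∧ V.valuation (t - α) < 1) →
      FewIntegral (Γ : Set ℂ) m (scaledImage t G A B R c) := by
  classical
  obtain ⟨D, hDdef⟩ : ∃ D : Fin 1 → Finset ℂ, D = fun _ => D₀ := ⟨_, rfl⟩
  have hDl : ∀ l, D l = D₀ := fun l => by rw [hDdef]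
  have hD : ∀ l, ∀ α ∈ D l, IsAlgebraic K α := fun l α hα => hD₀ α (by rw [← hDl l]; exact hα)
  have hord : ∀ l, ∀ α ∈ D l, ∀ i, 0 < order (c i) α := fun l α hα =>
    hord₀ α (by rw [← hDl l]; exact hα)
  have hpos : ∀ l, ∀ α ∈ D l, InGeneralPosition α m G A B := fun l α hα =>
    hpos₀ α (by rw [← hDl l]; exact hα)
  let k := algebraicClosure K ℂ
  have hcl : IsAlgClosure K k := inferInstance
  have hac : IsAlgClosed k := hcl.isAlgClosed
  have hc0k : CharZero k := inferInstance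
  let φ : Polynomial K →+* Polynomial k := Polynomial.mapRingHom (algebraMap K k)
  have hev : ∀ (t : k), (algebraMap k ℂ).comp ((Polynomial.evalRingHom t).comp φ) =
      evalAt K (algebraMap k ℂ t) := by
    intro t
    refine Polynomial.ringHom_ext (fun a => ?_) ?_
    · simp only [φ, evalAt, RingHom.comp_apply, Polynomial.coe_mapRingHom, Polynomial.map_C,
        Polynomial.coe_evalRingHom, Polynomial.eval_C, AlgHom.toRingHom_eq_coe, RingHom.coe_coe,
        Polynomial.aeval_C]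
      rfl
    · simp only [φ, evalAt, RingHom.comp_apply, Polynomial.coe_mapRingHom, Polynomial.map_X,
        Polynomial.coe_evalRingHom, Polynomial.eval_X, AlgHom.toRingHom_eq_coe, RingHom.coe_coe,
        Polynomial.aeval_X]
  have hspec : ∀ (t : k) (P : MvPolynomial (Fin (N + 1)) (Polynomial K)) (y : Fin (N + 1) → ℂ),
      aeval y (TH526.ZL.spec t (MvPolynomial.map φ P)) =
        eval₂ (evalAt K (algebraMap k ℂ t)) y P := by
    intro t P y
    rw [TH526.ZL.spec, MvPolynomial.map_map, aeval_def, eval₂_map, hev]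
  have hmult : ∀ (α : k) (i : Fin n), (φ (c i)).rootMultiplicity α =
      order (c i) (algebraMap k ℂ α) := by
    intro α i
    have h1 := Polynomial.eq_rootMultiplicity_map (p := φ (c i)) (f := algebraMap k ℂ)
      (algebraMap k ℂ).injective α
    rw [h1]
    simp only [φ, order, Polynomial.coe_mapRingHom, Polynomial.map_map]
    rfl
  -- finite sets of algebraic numbers
  have hlift : ∀ S : Finset ℂ, (∀ z ∈ S, IsAlgebraic K z) → ∃ S' : Finset k,
      (∀ z : k, z ∈ S' ↔ algebraMap k ℂ z ∈ S) ∧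
      algebraMap k ℂ '' (S' : Set k) = (S : Set ℂ) := by
    intro S hS
    have hmem : ∀ z ∈ S, z ∈ algebraicClosure K ℂ := fun z hz =>
      mem_algebraicClosure_iff'.2 (hS z hz).isIntegral
    have h1 : ∀ z : k, z ∈ (S.attach.image fun z => (⟨z.1, hmem z.1 z.2⟩ : k)) ↔
        algebraMap k ℂ z ∈ S := by
      intro z
      constructor
      · intro hz
        obtain ⟨w, _, hw⟩ := Finset.mem_image.1 hz
        rw [← hw]
        exact w.2
      · intro hz
        exact Finset.mem_image.2 ⟨⟨z.1, hz⟩, Finset.mem_attach _ _, rfl⟩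
    refine ⟨S.attach.image fun z => ⟨z.1, hmem z.1 z.2⟩, h1, ?_⟩
    ext z
    constructor
    · rintro ⟨w, hw, rfl⟩
      exact (h1 w).1 hw
    · intro hz
      exact ⟨⟨z, hmem z hz⟩, (h1 _).2 hz, rfl⟩
  obtain ⟨Γf, -, hΓf⟩ := hlift Γ hΓ
  let Γ' : Set k := (Γf : Set k)
  have hΓ' : algebraMap k ℂ '' Γ' = (Γ : Set ℂ) := hΓf
  choose D' hD' hD'im using fun l => hlift (D l) (hD l)
  have hcard : ∀ I : Finset (Fin 1), (I.biUnion D').card = (I.biUnion D).card := by
    intro I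
    rw [← Finset.card_image_of_injective (I.biUnion D') (algebraMap k ℂ).injective]
    congr 1
    ext z
    simp only [Finset.mem_image, Finset.mem_biUnion]
    constructor
    · rintro ⟨w, ⟨l, hl, hw⟩, rfl⟩
      exact ⟨l, hl, (hD' l w).1 hw⟩
    · rintro ⟨l, hl, hz⟩
      have h1 : z ∈ algebraMap k ℂ '' (D' l : Set k) := by
        rw [hD'im]
        exact hz
      obtain ⟨w, hw, hwz⟩ := h1
      exact ⟨w, ⟨l, hl, hw⟩, hwz⟩
  -- the case without degenerate members
  by_cases hne : ∃ l, (D l).Nonempty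
  swap
  · have h0 : D₀.card = 0 := by
      rw [Finset.card_eq_zero, Finset.eq_empty_iff_forall_notMem]
      intro z hz
      exact hne ⟨0, z, by rw [hDl]; exact hz⟩
    refine ⟨∅, fun t _ h => ?_⟩
    obtain ⟨α, hα, -⟩ := h
    rw [Finset.card_eq_zero.1 h0] at hα
    exact absurd hα (Finset.notMem_empty _)
  let Rt : Finset k := Finset.univ.biUnion D'
  have hRt : ∀ α : k, α ∈ Rt ↔ ∃ l, α ∈ D' l := by
    intro α
    simp only [Rt, Finset.mem_biUnion, Finset.mem_univ, true_and]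
  let ρt : Fin Rt.card → k := fun l => (Rt.equivFin.symm l : k)
  have hρ : ∀ α ∈ Rt, ∃ l, ρt l = α := by
    intro α hα
    refine ⟨Rt.equivFin ⟨α, hα⟩, ?_⟩
    simp [ρt]
  have hρ' : ∀ l, ρt l ∈ Rt := fun l => (Rt.equivFin.symm l).2
  have hc0 : ∀ i, φ (c i) ≠ 0 := by
    intro i h0
    obtain ⟨l, z, hz⟩ := hne
    have h2 : z ∈ algebraMap k ℂ '' (D' l : Set k) := by
      rw [hD'im]
      exact hz
    obtain ⟨α₀, hα₀, rfl⟩ := h2
    have h1 : 0 < order (c i) (algebraMap k ℂ α₀) := hord l _ hz i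
    rw [← hmult, h0, Polynomial.rootMultiplicity_zero] at h1
    exact lt_irrefl _ h1
  obtain ⟨W₀, hW₀, hΓW₀, hnear₀⟩ := nearV (k := k) (m := m) (M := Rt.card)
    (fun i => MvPolynomial.map φ (G i))
    (fun i => by
      obtain ⟨e, he⟩ := hG i
      exact ⟨e, he.map _⟩)
    (fun i => MvPolynomial.map φ (A i)) (fun i => MvPolynomial.map φ (B i)) δ
    (fun i => (hA i).map _) (fun i => (hB i).map _)
    (fun i => (R i).map φ) (fun i => φ (c i)) ρt hc0
    (fun l I hI y h1 h2 => by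
      by_contra h0
      obtain ⟨l', hl'⟩ := (hRt _).1 (hρ' l)
      obtain ⟨i, hi, h3⟩ := hpos l' _ ((hD' _ _).1 hl') I hI y ⟨h0, fun i => by
        have h4 := h1 i
        rw [hspec] at h4
        exact h4⟩
      apply h3
      have h4 := h2 i hi
      rw [hspec, hspec] at h4
      exact h4)
    Γ' (Set.toFinite _)
  -- the finite set of coefficients, with the degenerate parameters
  let W : Finset k := hW₀.toFinset ∪ Rt
  have hW₀W : ∀ z ∈ W₀, z ∈ (W : Set k) := by
    intro z hz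
    simp only [W, Finset.coe_union, Set.mem_union, Finset.mem_coe, Set.Finite.mem_toFinset]
    exact Or.inl hz
  have hRtW : ∀ z ∈ Rt, z ∈ (W : Set k) := by
    intro z hz
    simp only [W, Finset.coe_union, Set.mem_union, Finset.mem_coe]
    exact Or.inr hz
  have hnear : ∀ V : ValuationSubring ℂ, (∀ z ∈ (W : Set k), algebraMap k ℂ z ∈ V) → _ :=
    fun V hV => hnear₀ V fun z hz => hV z (hW₀W z hz)
  have hRk : ∀ i, ((R i).map φ).Monic := fun i => (hR i).map _
  have hTk : ∀ i u w, (((R i).map φ).coeff u).coeff w ≠ 0 → u ≤ T ∧ w ≤ T := by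
    intro i u w h0
    rw [Polynomial.coeff_map] at h0
    change ((Polynomial.mapRingHom (algebraMap K k)) ((R i).coeff u)).coeff w ≠ 0 at h0
    rw [Polynomial.coe_mapRingHom, Polynomial.coeff_map] at h0
    exact hT i u w fun h1 => h0 (by rw [h1, map_zero])
  -- the relations at a point
  have hdata : ∀ (t' : k) (x s : Fin n → ℂ)
      (y : Fin (N + 1) → ℂ), OnB (algebraMap k ℂ t') G y →
      (∀ i, valueAt (R i) (s i) (x i) = 0 ∧
        evalAt K (algebraMap k ℂ t') (c i) * eval₂ (evalAt K (algebraMap k ℂ t')) y (B i) * s i =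
          eval₂ (evalAt K (algebraMap k ℂ t')) y (A i)) →
      (∀ i, Polynomial.eval₂ (Polynomial.aeval (x i) : Polynomial k →ₐ[k] ℂ).toRingHom (s i)
        ((R i).map φ) = 0) ∧
      (∀ i, aeval y (TH526.ZL.spec t' (MvPolynomial.map φ (G i))) = 0) ∧
      (∀ i, algebraMap k ℂ ((φ (c i)).eval t') *
        aeval y (TH526.ZL.spec t' (MvPolynomial.map φ (B i))) * s i =
        aeval y (TH526.ZL.spec t' (MvPolynomial.map φ (A i)))) := by
    intro t' x s y hy hxy
    refine ⟨fun i => ?_, fun i => ?_, fun i => ?_⟩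
    · rw [Polynomial.eval₂_map]
      have h1 : ((Polynomial.aeval (x i) : Polynomial k →ₐ[k] ℂ).toRingHom).comp φ =
          (Polynomial.aeval (x i) : Polynomial K →ₐ[K] ℂ).toRingHom := by
        ext z
        · simp [φ]
        · simp [φ]
      rw [h1]
      exact (hxy i).1
    · rw [hspec]
      exact hy.2 i
    · rw [hspec, hspec]
      have h1 : algebraMap k ℂ ((φ (c i)).eval t') = evalAt K (algebraMap k ℂ t') (c i) := by
        rw [← hev t']
        rfl
      rw [h1]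
      exact (hxy i).2
  have hΓV : ∀ V : ValuationSubring ℂ, (∀ z ∈ (W : Set k), algebraMap k ℂ z ∈ V) →
      ∀ z ∈ Γ', algebraMap k ℂ z ∈ V := fun V hV z hz => hV z (hW₀W z (hΓW₀ hz))
  have hnear' : ∀ (V : ValuationSubring ℂ) (_ : ∀ z ∈ (W : Set k), algebraMap k ℂ z ∈ V)
      (l : Fin 1) (α : k) (_ : α ∈ D' l) (τ : k)
      (_ : V.valuation (algebraMap k ℂ (τ - α)) < 1)
      (s : Fin n → ℂ) (y : Fin (N + 1) → ℂ), y ≠ 0 →
      (∀ i, aeval y (TH526.ZL.spec τ (MvPolynomial.map φ (G i))) = 0) →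
      (∀ i, algebraMap k ℂ ((φ (c i)).eval τ) *
        aeval y (TH526.ZL.spec τ (MvPolynomial.map φ (B i))) * s i =
        aeval y (TH526.ZL.spec τ (MvPolynomial.map φ (A i)))) →
      ∃ E : Finset (Fin n), E.card ≤ m ∧ ∀ i, i ∉ E → V.valuation (s i) *
        V.valuation (algebraMap k ℂ (τ - α)) ^ (φ (c i)).rootMultiplicity α = 1 := by
    intro V hV l α hα τ hτ s y hy h1 h2
    obtain ⟨l', hl'⟩ := hρ α ((hRt α).2 ⟨l, hα⟩)
    have h3 := (hnear V hV).2 l' τ (by rw [hl']; exact hτ) s y hy h1 h2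
    rw [hl'] at h3
    exact h3
  -- the criterion
  refine ⟨W.image (algebraMap k ℂ), ?_⟩
  rintro t₀ ht₀ ⟨α₀, hα₀, V, hVW₀, hV0⟩ x ⟨y, hy, s, hxy⟩ I hI
  obtain ⟨t, rfl⟩ : ∃ t : k, algebraMap k ℂ t = t₀ :=
    ⟨⟨t₀, mem_algebraicClosure_iff'.2 ht₀.isIntegral⟩, rfl⟩
  obtain ⟨α, hα1⟩ : ∃ α : k, algebraMap k ℂ α = α₀ :=
    ⟨⟨α₀, mem_algebraicClosure_iff'.2 (hD₀ α₀ hα₀).isIntegral⟩, rfl⟩
  have hα : α ∈ D' 0 := (hD' 0 α).2 (by rw [hα1, hDl]; exact hα₀)
  have hV1 : V.valuation (algebraMap k ℂ (t - α)) < 1 := by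
    rw [map_sub, hα1]
    exact hV0
  have hVW : ∀ z ∈ (W : Set k), algebraMap k ℂ z ∈ V := fun z hz =>
    hVW₀ _ (Finset.mem_image_of_mem _ hz)
  obtain ⟨h2, h3, h4⟩ := hdata t x s y hy hxy
  by_contra hcard
  push Not at hcard
  obtain ⟨E, hE, hE'⟩ := hnear' V hVW 0 α hα t hV1 s y hy.1 h3 h4
  obtain ⟨i, hiI, hiE⟩ := Finset.exists_mem_notMem_of_card_lt_card (lt_of_le_of_lt hE hcard)
  have h1 := hE' i hiE
  have he : 0 < (φ (c i)).rootMultiplicity α := by
    rw [hmult]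
    exact hord 0 _ ((hD' _ _).1 hα) i
  have hs : 1 < V.valuation (s i) := by
    by_contra hle
    push Not at hle
    have h5 : V.valuation (s i) * V.valuation (algebraMap k ℂ (t - α)) ^
        (φ (c i)).rootMultiplicity α < 1 :=
      (mul_le_of_le_one_left' hle).trans_lt (pow_lt_one₀ zero_le hV1 he.ne')
    rw [h1] at h5
    exact lt_irrefl _ h5
  have hx := (TH526.ZL.tie V ((R i).map φ) (hRk i)
    (fun u w h0 => (hnear V hVW).1 i u w h0) (hTk i) (h2 i) hs).1
  have hint := hI i hiI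
  rw [← hΓ'] at hint
  exact absurd hx (not_lt.2 (v_le_of_int Γ' V (hΓV _ hVW) hint))

end Pool.Agent.Y199.SG.ZPY
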