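import Pool.Agent.Y199.SG.ZPE

/-!
Places near to points of an elliptic curve (helper file).
-/

set_option autoImplicit false

namespace Pool.Agent.Y199.SG.ZPZ

open MvPolynomial Pool.Agent.Y910.Z Pool.Agent.Y199.SG

/-- The values of a polynomial with coefficients in a valuation ring at near points are near. -/
theorem v_near (V : ValuationSubring ℂ) (q : MvPolynomial (Fin 2) ℂ) (P Q : Fin 2 → ℂ)
    (hq : ∀ d, q.coeff d ∈ V) (hQ : ∀ i, Q i ∈ V) (hPQ : ∀ i, V.valuation (P i - Q i) < 1) :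
    eval P q ∈ V ∧ eval Q q ∈ V ∧ V.valuation (eval P q - eval Q q) < 1 := by
  have hP : ∀ i, P i ∈ V := by
    intro i
    have h1 : P i = (P i - Q i) + Q i := by ring
    rw [h1]
    exact V.add_mem _ _ ((ValuationSubring.valuation_le_one_iff _ _).1 (hPQ i).le) (hQ i)
  let S : (Fin 2 → V) → V := fun z => ∑ d ∈ q.support, (⟨q.coeff d, hq d⟩ : V) * ∏ i, z i ^ d i
  let P' : Fin 2 → V := fun i => ⟨P i, hP i⟩
  let Q' : Fin 2 → V := fun i => ⟨Q i, hQ i⟩
  have hS : ∀ z : Fin 2 → V, ((S z : V) : ℂ) = eval (fun i => (z i : ℂ)) q := by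
    intro z
    rw [eval_eq']
    simp only [S]
    push_cast
    rfl
  have hdiff : S P' - S Q' ∈ IsLocalRing.maximalIdeal V := by
    have h0 : ∀ i, P' i - Q' i ∈ IsLocalRing.maximalIdeal V := by
      intro i
      exact (ValuationSubring.valuation_lt_one_iff V (P' i - Q' i)).2 (hPQ i)
    rw [← Ideal.Quotient.eq]
    simp only [S, map_sum, map_mul, map_prod, map_pow]
    refine Finset.sum_congr rfl fun d _ => ?_
    congr 1
    refine Finset.prod_congr rfl fun i _ => ?_
    rw [Ideal.Quotient.eq.2 (h0 i)]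
  have e1 : ((S P' : V) : ℂ) = eval P q := hS P'
  have e2 : ((S Q' : V) : ℂ) = eval Q q := hS Q'
  refine ⟨?_, ?_, ?_⟩
  · rw [← e1]
    exact (S P').2
  · rw [← e2]
    exact (S Q').2
  · rw [← e1, ← e2]
    exact (ValuationSubring.valuation_lt_one_iff V (S P' - S Q')).1 hdiff

theorem v_unit (V : ValuationSubring ℂ) (q : MvPolynomial (Fin 2) ℂ) (P Q : Fin 2 → ℂ)
    (hq : ∀ d, q.coeff d ∈ V) (hQ : ∀ i, Q i ∈ V) (hPQ : ∀ i, V.valuation (P i - Q i) < 1)
    (h0 : eval Q q ≠ 0) (hinv : (eval Q q)⁻¹ ∈ V) :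
    V.valuation (eval P q) = 1 ∧ V.valuation (eval Q q) = 1 := by
  obtain ⟨h1, h2, h3⟩ := v_near V q P Q hq hQ hPQ
  have h4 : V.valuation (eval Q q) = 1 := by
    refine le_antisymm ((ValuationSubring.valuation_le_one_iff _ _).2 h2) ?_
    have h5 := (ValuationSubring.valuation_le_one_iff _ _).2 hinv
    rw [map_inv₀] at h5
    exact (inv_le_one₀ (zero_lt_iff.2 ((Valuation.ne_zero_iff _).2 h0))).1 h5
  refine ⟨?_, h4⟩
  rw [← h4] at h3
  rw [Valuation.map_eq_of_sub_lt _ h3, h4]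

/-- A place near to a point of the elliptic curve at which given independent numbers are integral. -/
theorem exists_place2 {k : Type} [Field k] [Algebra k ℂ] (W : Set k) (a b : k) (P Q : Fin 2 → k)
    (hP : P 1 ^ 2 = P 0 ^ 3 + a * P 0 + b) (hQ : Q 1 ^ 2 = Q 0 ^ 3 + a * Q 0 + b)
    (haW : a ∈ W) (hQW : ∀ i, Q i ∈ W) (hQ2 : Q 1 ≠ 0 → (2 * Q 1)⁻¹ ∈ W)
    (V₀ : ValuationSubring ℂ) (hW : ∀ z ∈ W, algebraMap k ℂ z ∈ V₀)
    (hnear : ∀ i, V₀.valuation (algebraMap k ℂ (P i) - algebraMap k ℂ (Q i)) < 1)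
    {ρ : Type} (x : ρ → ℂ) (hx : AlgebraicIndependent k x) :
    ∃ V : ValuationSubring ℂ,
      (∀ i, V.valuation (algebraMap k ℂ (P i) - algebraMap k ℂ (Q i)) < 1) ∧
      (∀ z ∈ W, algebraMap k ℂ z ∈ V) ∧ ∀ j, x j ∈ V := by
  have hinj := (algebraMap k ℂ).injective
  have hfac : (algebraMap k ℂ (P 1) - algebraMap k ℂ (Q 1)) *
      (algebraMap k ℂ (P 1) + algebraMap k ℂ (Q 1)) =
      (algebraMap k ℂ (P 0) - algebraMap k ℂ (Q 0)) * (algebraMap k ℂ (P 0) ^ 2 +
        algebraMap k ℂ (P 0) * algebraMap k ℂ (Q 0) + algebraMap k ℂ (Q 0) ^ 2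
        + algebraMap k ℂ a) := by
    have e1 := congrArg (algebraMap k ℂ) hP
    have e2 := congrArg (algebraMap k ℂ) hQ
    simp only [map_add, map_mul, map_pow] at e1 e2
    linear_combination e1 - e2
  have hcof : ∀ V : ValuationSubring ℂ, (∀ z ∈ W, algebraMap k ℂ z ∈ V) →
      V.valuation (algebraMap k ℂ (P 0) - algebraMap k ℂ (Q 0)) < 1 →
      V.valuation ((algebraMap k ℂ (P 1) - algebraMap k ℂ (Q 1)) *
        (algebraMap k ℂ (P 1) + algebraMap k ℂ (Q 1))) < 1 := by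
    intro V hV h1
    have h0 : algebraMap k ℂ (P 0) ∈ V := by
      have h2 : algebraMap k ℂ (P 0) = (algebraMap k ℂ (P 0) - algebraMap k ℂ (Q 0))
          + algebraMap k ℂ (Q 0) := by ring
      rw [h2]
      exact V.add_mem _ _ ((ValuationSubring.valuation_le_one_iff _ _).1 h1.le) (hV _ (hQW 0))
    have hQ0 := hV _ (hQW 0)
    have ha := hV _ haW
    have h3 : algebraMap k ℂ (P 0) ^ 2 + algebraMap k ℂ (P 0) * algebraMap k ℂ (Q 0) +
        algebraMap k ℂ (Q 0) ^ 2 + algebraMap k ℂ a ∈ V :=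
      add_mem (add_mem (add_mem (pow_mem h0 2) (mul_mem h0 hQ0)) (pow_mem hQ0 2)) ha
    rw [hfac, map_mul]
    exact mul_lt_one_of_lt_of_le h1 ((ValuationSubring.valuation_le_one_iff _ _).2 h3)
  by_cases h1 : Q 1 = 0
  · -- a point of order two
    have hP1 : algebraMap k ℂ (P 1) ∈ V₀ := by
      have h2 := hnear 1
      rw [h1, map_zero, sub_zero] at h2
      exact (ValuationSubring.valuation_le_one_iff _ _).1 h2.le
    have hW' : ∀ z ∈ insert (P 1) W, algebraMap k ℂ z ∈ V₀ := by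
      intro z hz
      rcases hz with rfl | hz
      · exact hP1
      · exact hW z hz
    obtain ⟨V, hV1, hV2, hV3⟩ := exists_place (insert (P 1) W) (t := P 0) (a := Q 0)
      (Set.mem_insert_of_mem _ (hQW 0)) (not_bad _ _ _ V₀ hW' (Set.mem_insert_of_mem _ (hQW 0))
        (hnear 0)) x hx
    have hV2' : ∀ z ∈ W, algebraMap k ℂ z ∈ V := fun z hz => hV2 z (Set.mem_insert_of_mem _ hz)
    rw [map_sub] at hV1
    refine ⟨V, ?_, hV2', hV3⟩
    have h2 := hcof V hV2' hV1
    rw [h1, map_zero, sub_zero, add_zero, map_mul] at h2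
    intro i
    fin_cases i
    · exact hV1
    · change V.valuation (algebraMap k ℂ (P 1) - algebraMap k ℂ (Q 1)) < 1
      rw [h1, map_zero, sub_zero]
      by_contra h3
      push Not at h3
      exact absurd h2 (not_lt.2 (one_le_mul h3 h3))
  · -- the other points
    have h2Q : V₀.valuation (algebraMap k ℂ (2 * Q 1)) = 1 := by
      have h20 : (2 : k) * Q 1 ≠ 0 := by
        refine mul_ne_zero ?_ h1
        intro h2
        have h3 := congrArg (algebraMap k ℂ) h2
        rw [map_ofNat, map_zero] at h3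
        exact two_ne_zero h3
      have h3 : algebraMap k ℂ (2 * Q 1) ∈ V₀ := by
        rw [map_mul, map_ofNat]
        have h4 : (2 : ℂ) ∈ V₀ := by
          have h5 : (2 : ℂ) = 1 + 1 := by norm_num
          rw [h5]
          exact add_mem (one_mem V₀) (one_mem V₀)
        exact mul_mem h4 (hW _ (hQW 1))
      have h4 := (ValuationSubring.valuation_le_one_iff _ _).2 (hW _ (hQ2 h1))
      rw [map_inv₀, map_inv₀] at h4
      refine le_antisymm ((ValuationSubring.valuation_le_one_iff _ _).2 h3) ?_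
      exact (inv_le_one₀ (zero_lt_iff.2 ((Valuation.ne_zero_iff _).2
        (fun h5 => h20 (hinj (by rw [h5, map_zero])))))).1 h4
    have hsum : V₀.valuation (algebraMap k ℂ (P 1 + Q 1)) = 1 := by
      have h3 := hnear 1
      rw [← h2Q] at h3
      have h4 : algebraMap k ℂ (P 1) - algebraMap k ℂ (Q 1) =
          algebraMap k ℂ (P 1 + Q 1) - algebraMap k ℂ (2 * Q 1) := by
        rw [map_add, map_mul, map_ofNat]
        ring
      rw [h4] at h3
      rw [Valuation.map_eq_of_sub_lt _ h3, h2Q]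
    have hsum0 : P 1 + Q 1 ≠ 0 := by
      intro h3
      rw [h3, map_zero, map_zero] at hsum
      exact zero_ne_one hsum
    have hW' : ∀ z ∈ insert (P 1 + Q 1)⁻¹ W, algebraMap k ℂ z ∈ V₀ := by
      intro z hz
      rcases hz with rfl | hz
      · refine (ValuationSubring.valuation_le_one_iff _ _).1 ?_
        rw [map_inv₀, map_inv₀, hsum, inv_one]
      · exact hW z hz
    obtain ⟨V, hV1, hV2, hV3⟩ := exists_place (insert (P 1 + Q 1)⁻¹ W) (t := P 0) (a := Q 0)
      (Set.mem_insert_of_mem _ (hQW 0)) (not_bad _ _ _ V₀ hW' (Set.mem_insert_of_mem _ (hQW 0))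
        (hnear 0)) x hx
    have hV2' : ∀ z ∈ W, algebraMap k ℂ z ∈ V := fun z hz => hV2 z (Set.mem_insert_of_mem _ hz)
    rw [map_sub] at hV1
    refine ⟨V, ?_, hV2', hV3⟩
    have h2 := hcof V hV2' hV1
    have h3 := (ValuationSubring.valuation_le_one_iff _ _).2 (hV2 _ (Set.mem_insert _ _))
    have h4 : algebraMap k ℂ (P 1) - algebraMap k ℂ (Q 1) =
        ((algebraMap k ℂ (P 1) - algebraMap k ℂ (Q 1)) *
          (algebraMap k ℂ (P 1) + algebraMap k ℂ (Q 1))) * algebraMap k ℂ (P 1 + Q 1)⁻¹ := by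
      have h5 : algebraMap k ℂ (P 1) + algebraMap k ℂ (Q 1) ≠ 0 := by
        rw [← map_add]
        exact fun h6 => hsum0 (hinj (by rw [h6, map_zero]))
      rw [map_inv₀, map_add]
      field_simp
    intro i
    fin_cases i
    · exact hV1
    · change V.valuation (algebraMap k ℂ (P 1) - algebraMap k ℂ (Q 1)) < 1
      rw [h4, map_mul]
      exact mul_lt_one_of_lt_of_le h2 h3

end Pool.Agent.Y199.SG.ZPZ
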