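import Pool.Agent.Y199.SG.ZPZ

/-!
Families over an elliptic curve in `Y(1)^n` (helper file).
-/

set_option autoImplicit false

namespace Pool.Agent.Y199.SG.ZPZ

open Pool.Agent.Y199.SG Pool.Agent.Y199.ZF

/-- All but finitely many points over a number field are near to all the points `Q_l`, at places
which are nonnegative on a given finite set. -/
theorem near_all {M : ℕ} (a b : ℂ) (ha : IsAlgebraic ℚ a) (hb : IsAlgebraic ℚ b)
    (hab : 4 * a ^ 3 + 27 * b ^ 2 ≠ 0) (Q : Fin M → Fin 2 → ℂ)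
    (hQ : ∀ l, Q l ∈ Curve a b) (hQa : ∀ l i, IsAlgebraic ℚ (Q l i)) (W : Finset ℂ)
    (E : IntermediateField ℚ ℂ) [FiniteDimensional ℚ E] :
    {P : Fin 2 → ℂ | P ∈ Curve a b ∧ (∀ i, P i ∈ E) ∧
      ¬ (∀ l, ∃ V : ValuationSubring ℂ, (∀ z ∈ W, z ∈ V) ∧
        ∀ i, V.valuation (P i - Q l i) < 1)}.Finite := by
  classical
  have hbad := Set.finite_iUnion fun l : Fin M =>
    near_pt a b ha hb hab (Q l) (hQ l) (hQa l) E W
  refine hbad.subset ?_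
  rintro P ⟨hP, hPE, hcon⟩
  by_contra hnot
  apply hcon
  intro l
  have h1 : ∃ (p : ℕ) (_ : Fact p.Prime) (τ : ℂ →+* PadicAlgCl p),
      (∀ y ∈ W, ‖τ y‖ ≤ 1) ∧ ∀ i, ‖τ (P i) - τ (Q l i)‖ < 1 := by
    by_contra h2
    exact hnot (Set.mem_iUnion.2 ⟨l, hP, hPE, h2⟩)
  obtain ⟨p, hp, τ, hτ, hnear⟩ := h1
  refine ⟨ringOf τ, fun z hz => (mem_ringOf τ).2 (hτ z hz), fun i => val_ringOf τ ?_⟩
  rw [map_sub]
  exact hnear i

theorem alg_of_mem (K : Subfield ℂ) (E : IntermediateField ℚ ℂ) [FiniteDimensional ℚ E] (z : ℂ)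
    (hz : z ∈ E) : IsAlgebraic K z := by
  have h1 : IsAlgebraic ℚ (⟨z, hz⟩ : E) := Algebra.IsAlgebraic.isAlgebraic _
  have h2 : IsAlgebraic ℚ z := h1.algebraMap
  exact h2.isIntegral.tower_top.isAlgebraic

end Pool.Agent.Y199.SG.ZPZ
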