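import Pool.Agent.Y199.SG.Par
import Pool.Agent.Y152.BD.Fam

/-!
Local criterion for one-parameter families of subsets of `Y(1)^n` (helper file; the definitions and
the proof are those of helper910's result `MP_d83ecd_ag.FinitelyGeneratedFields`, with the criterion
stated separately).
-/

set_option autoImplicit false

namespace Pool.Agent.Y199.SG.ZPY

open H294ZP UpperHalfPlane MvPolynomial Pool.Agent.W282.ZP Pool.Agent.Y152.BD Pool.Agent.Y910.Z
  Pool.Agent.Y199.SG

/-- A special subvariety of `Y(1)^n = ℂ^n` of dimension `r` (with more constants allowed): a map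
`cls` from the coordinates onto `r` classes (`none` for constant coordinates), an integral matrix
of positive determinant for every coordinate, and a constant for every coordinate, which is a
special point or integral over `Λ`. -/
structure SpecialVariety {Λ : Type} [CommRing Λ] (f : Λ →+* ℂ) (n r : ℕ) where
  cls : Fin n → Option (Fin r)
  surj : ∀ l : Fin r, ∃ i, cls i = some l
  mat : Fin n → Matrix (Fin 2) (Fin 2) ℤ
  det_pos : ∀ i, 0 < (mat i).det
  const : Fin n → ℂ
  allowed : ∀ i, (∃ τ : ℍ, IsCM τ ∧ const i = jj τ) ∨ f.IsIntegralElem (const i)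

/-- The points of the special subvariety: the constant coordinates are the given constants, and the
coordinates of class `l` are `j (g_i z_l)`, with a free parameter `z_l` in the upper half plane. -/
def SpecialVariety.locus {Λ : Type} [CommRing Λ] {f : Λ →+* ℂ} {n r : ℕ}
    (Z : SpecialVariety f n r) : Set (Fin n → ℂ) :=
  {x | ∃ z : Fin r → ℍ, ∀ i, (Z.cls i = none → x i = Z.const i) ∧
    ∀ l, Z.cls i = some l → ∃ w : ℍ,
      (w : ℂ) * (Z.mat i 1 0 * z l + Z.mat i 1 1) = Z.mat i 0 0 * z l + Z.mat i 0 1 ∧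
      x i = jj w}

/-- `X` has no intersection of dimension larger than `r + m - n` with special subvarieties `Z` of
dimension `r`: every irreducible closed subset `A` of `X ∩ Z` has dimension at most `r + m - n`, and
every point of `X ∩ Z` has transcendence degree at most `r + m - n` over `K`. -/
def NoAtypical {Λ : Type} [CommRing Λ] (f : Λ →+* ℂ) (K : Subfield ℂ) {n : ℕ} (m : ℕ)
    (X : Set (Fin n → ℂ)) : Prop :=
  ∀ (r : ℕ) (Z : SpecialVariety f n r),
    (∀ A ⊆ X ∩ Z.locus, zcl A ⊆ A → (idealOf A).IsPrime →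
      zdim A + (n : Cardinal) ≤ (r : Cardinal) + (m : Cardinal)) ∧
    ∀ x ∈ X ∩ Z.locus, ∀ S : Finset (Fin n), AlgebraicIndependent K (fun i : S => x i) →
      S.card + n ≤ r + m

/-- the value at `t` of a polynomial with coefficients in `K` -/
noncomputable def evalAt (K : Subfield ℂ) (t : ℂ) : Polynomial K →+* ℂ :=
  (Polynomial.aeval t : Polynomial K →ₐ[K] ℂ).toRingHom

/-- `y` is a vector of homogeneous coordinates of a point of the member `B_t` of the family of
projective algebraic sets defined by the forms `G k`. -/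
def OnB {K : Subfield ℂ} (t : ℂ) {N : ℕ} {κ : Type}
    (G : κ → MvPolynomial (Fin (N + 1)) (Polynomial K)) (y : Fin (N + 1) → ℂ) : Prop :=
  y ≠ 0 ∧ ∀ k, eval₂ (evalAt K t) y (G k) = 0

/-- The divisors of the `A i / B i` are in general position at `t`: no point of `B_t` lies on
`m + 1` of them. -/
def InGeneralPosition {K : Subfield ℂ} (t : ℂ) {N n : ℕ} {κ : Type} (m : ℕ)
    (G : κ → MvPolynomial (Fin (N + 1)) (Polynomial K))
    (A B : Fin n → MvPolynomial (Fin (N + 1)) (Polynomial K)) : Prop :=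
  ∀ I : Finset (Fin n), I.card = m + 1 → ∀ y : Fin (N + 1) → ℂ, OnB t G y →
    ∃ i ∈ I, eval₂ (evalAt K t) y (A i) * eval₂ (evalAt K t) y (B i) ≠ 0

/-- The value at `(s, x)` of a polynomial `R = ∑ r_u (J) S^u` in two variables `S` and `J`. -/
noncomputable def valueAt {K : Subfield ℂ} (R : Polynomial (Polynomial K)) (s x : ℂ) : ℂ :=
  Polynomial.eval₂ (Polynomial.aeval x : Polynomial K →ₐ[K] ℂ).toRingHom s R

/-- The member `X_t` of the family of subsets of `Y(1)^n`: the points `x` over which there are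
values `s_i` of the functions on the factors of the product of modular curves, with
`c_i (t) s_i = A_i (y) / B_i (y)` for a point `y` of `B_t`. -/
def scaledImage {K : Subfield ℂ} (t : ℂ) {N n : ℕ} {κ : Type}
    (G : κ → MvPolynomial (Fin (N + 1)) (Polynomial K))
    (A B : Fin n → MvPolynomial (Fin (N + 1)) (Polynomial K))
    (R : Fin n → Polynomial (Polynomial K)) (c : Fin n → Polynomial K) : Set (Fin n → ℂ) :=
  {x | ∃ y, OnB t G y ∧ ∃ s : Fin n → ℂ, ∀ i, valueAt (R i) (s i) (x i) = 0 ∧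
    evalAt K t (c i) * eval₂ (evalAt K t) y (B i) * s i = eval₂ (evalAt K t) y (A i)}

/-- The order of the zero of `c` at the complex number `α`. -/
noncomputable def order {K : Subfield ℂ} (c : Polynomial K) (α : ℂ) : ℕ :=
  (c.map (algebraMap K ℂ)).rootMultiplicity α

/-- The orders of the zeros of the `c i` at the elements of the `D l` are positive and
independent. -/
def IndependentOrders {K : Subfield ℂ} {n M : ℕ} (T : ℕ) (c : Fin n → Polynomial K)
    (D : Fin M → Finset ℂ) : Prop :=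
  (∀ l, ∀ α ∈ D l, ∀ i, 0 < order (c i) α) ∧
  ∀ l l', l ≠ l' → ∀ α ∈ D l, ∀ α' ∈ D l', ∀ i j, i ≠ j → ∀ q, 0 < q → q ≤ T ^ 8 →
    ¬ IsSquare (q * (order (c i) α * order (c j) α * (order (c i) α' * order (c j) α')))

/-- The class relation of the points of a special subvariety. -/
theorem rel_of_locus {Λ : Type} [CommRing Λ] {f : Λ →+* ℂ} {n r : ℕ} (Z : SpecialVariety f n r)
    {x : Fin n → ℂ} (hx : x ∈ Z.locus) (i j : Fin n) (l : Fin r) (hi : Z.cls i = some l)
    (hj : Z.cls j = some l) : IsIntegral (Algebra.adjoin ℤ {x i}) (x j) ∧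
      Polynomial.eval₂ (Polynomial.aeval (x i) : Polynomial ℂ →ₐ[ℂ] ℂ).toRingHom (x j)
        (Psi ((Z.mat i).det * (Z.mat j).det).toNat) = 0 := by
  obtain ⟨z, hz⟩ := hx
  obtain ⟨w, hw, hxw⟩ := (hz i).2 l hi
  obtain ⟨w', hw', hxw'⟩ := (hz j).2 l hj
  refine ⟨?_, ?_⟩
  · obtain ⟨a, b, c, d, e1, e2⟩ := isogeny_rel (Z.det_pos i) hw hw'
    rw [hxw, hxw']
    exact isogenous_integral w w' a b c d (by
      rw [e1]
      exact mul_pos (Z.det_pos i) (Z.det_pos j)) e2
  · rw [← eval_relPoly]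
    exact eval_relPoly_eq_zero (Z.det_pos i) (Z.det_pos j) hw hw' hxw hxw'

/-- The local criterion. -/
theorem core (K : Subfield ℂ) [Countable K] (κ : Type) [Finite κ] (N n m M T : ℕ)
    (G : κ → MvPolynomial (Fin (N + 1)) (Polynomial K)) (hG : ∀ k, ∃ e, (G k).IsHomogeneous e)
    (A B : Fin n → MvPolynomial (Fin (N + 1)) (Polynomial K)) (δ : Fin n → ℕ)
    (hA : ∀ i, (A i).IsHomogeneous (δ i)) (hB : ∀ i, (B i).IsHomogeneous (δ i))
    (R : Fin n → Polynomial (Polynomial K)) (hR : ∀ i, (R i).Monic)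
    (hT : ∀ i u w, ((R i).coeff u).coeff w ≠ 0 → u ≤ T ∧ w ≤ T)
    (c : Fin n → Polynomial K) (D : Fin M → Finset ℂ) (hD : ∀ l, ∀ α ∈ D l, IsAlgebraic K α)
    (hind : IndependentOrders T c D) (hpos : ∀ l, ∀ α ∈ D l, InGeneralPosition α m G A B)
    (Γ : Finset ℂ) (hΓ : ∀ γ ∈ Γ, IsAlgebraic K γ) (hne : ∃ l, (D l).Nonempty) :
    ∃ W₁ : Finset ℂ,
      (∀ t : ℂ, IsAlgebraic K t → (∃ f : Fin (n.choose 2 + 1) → Fin M, Function.Injective f ∧
        ∀ l, ∃ a ∈ D (f l), ∃ V : ValuationSubring ℂ, (∀ z ∈ W₁, z ∈ V) ∧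
          V.valuation (t - a) < 1) →
        NoAtypical (algebraMap (Algebra.adjoin ℤ (Γ : Set ℂ)) ℂ) K m
          (scaledImage t G A B R c)) ∧
      (m = 1 → ∀ t : ℂ, IsAlgebraic K t → (∃ f : Fin (3 + 1) → Fin M, Function.Injective f ∧
        ∀ l, ∃ a ∈ D (f l), ∃ V : ValuationSubring ℂ, (∀ z ∈ W₁, z ∈ V) ∧
          V.valuation (t - a) < 1) →
        ¬ ∃ (r : ℕ) (Z : SpecialVariety (algebraMap (Algebra.adjoin ℤ (Γ : Set ℂ)) ℂ) n r),
          r + 2 ≤ n ∧ (scaledImage t G A B R c ∩ Z.locus).Nonempty) := by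
  classical
  let k := algebraicClosure K ℂ
  have hcl : IsAlgClosure K k := inferInstance
  have hac : IsAlgClosed k := hcl.isAlgClosed
  have hc0k : CharZero k := inferInstance
  let φ : Polynomial K →+* Polynomial k := Polynomial.mapRingHom (algebraMap K k)
  have hev : ∀ (t : k), (algebraMap k ℂ).comp ((Polynomial.evalRingHom t).comp φ) =
      evalAt K (algebraMap k ℂ t) := by
    intro t
    refine Polynomial.ringHom_ext (fun a => ?_) ?_
    · simp only [φ, evalAt, RingHom.comp_apply, Polynomial.coe_mapRingHom, Polynomial.map_C,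
        Polynomial.coe_evalRingHom, Polynomial.eval_C, AlgHom.toRingHom_eq_coe, RingHom.coe_coe,
        Polynomial.aeval_C]
      rfl
    · simp only [φ, evalAt, RingHom.comp_apply, Polynomial.coe_mapRingHom, Polynomial.map_X,
        Polynomial.coe_evalRingHom, Polynomial.eval_X, AlgHom.toRingHom_eq_coe, RingHom.coe_coe,
        Polynomial.aeval_X]
  have hspec : ∀ (t : k) (P : MvPolynomial (Fin (N + 1)) (Polynomial K)) (y : Fin (N + 1) → ℂ),
      aeval y (TH526.ZL.spec t (MvPolynomial.map φ P)) =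
        eval₂ (evalAt K (algebraMap k ℂ t)) y P := by
    intro t P y
    rw [TH526.ZL.spec, MvPolynomial.map_map, aeval_def, eval₂_map, hev]
  have hmult : ∀ (α : k) (i : Fin n), (φ (c i)).rootMultiplicity α =
      order (c i) (algebraMap k ℂ α) := by
    intro α i
    have h1 := Polynomial.eq_rootMultiplicity_map (p := φ (c i)) (f := algebraMap k ℂ)
      (algebraMap k ℂ).injective α
    rw [h1]
    simp only [φ, order, Polynomial.coe_mapRingHom, Polynomial.map_map]
    rfl
  -- finite sets of algebraic numbers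
  have hlift : ∀ S : Finset ℂ, (∀ z ∈ S, IsAlgebraic K z) → ∃ S' : Finset k,
      (∀ z : k, z ∈ S' ↔ algebraMap k ℂ z ∈ S) ∧
      algebraMap k ℂ '' (S' : Set k) = (S : Set ℂ) := by
    intro S hS
    have hmem : ∀ z ∈ S, z ∈ algebraicClosure K ℂ := fun z hz =>
      mem_algebraicClosure_iff'.2 (hS z hz).isIntegral
    have h1 : ∀ z : k, z ∈ (S.attach.image fun z => (⟨z.1, hmem z.1 z.2⟩ : k)) ↔
        algebraMap k ℂ z ∈ S := by
      intro z
      constructor
      · intro hz
        obtain ⟨w, _, hw⟩ := Finset.mem_image.1 hz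
        rw [← hw]
        exact w.2
      · intro hz
        exact Finset.mem_image.2 ⟨⟨z.1, hz⟩, Finset.mem_attach _ _, rfl⟩
    refine ⟨S.attach.image fun z => ⟨z.1, hmem z.1 z.2⟩, h1, ?_⟩
    ext z
    constructor
    · rintro ⟨w, hw, rfl⟩
      exact (h1 w).1 hw
    · intro hz
      exact ⟨⟨z, hmem z hz⟩, (h1 _).2 hz, rfl⟩
  obtain ⟨Γf, -, hΓf⟩ := hlift Γ hΓ
  let Γ' : Set k := (Γf : Set k)
  have hΓ' : algebraMap k ℂ '' Γ' = (Γ : Set ℂ) := hΓf
  choose D' hD' hD'im using fun l => hlift (D l) (hD l)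
  let Rt : Finset k := Finset.univ.biUnion D'
  have hRt : ∀ α : k, α ∈ Rt ↔ ∃ l, α ∈ D' l := by
    intro α
    simp only [Rt, Finset.mem_biUnion, Finset.mem_univ, true_and]
  let ρt : Fin Rt.card → k := fun l => (Rt.equivFin.symm l : k)
  have hρ : ∀ α ∈ Rt, ∃ l, ρt l = α := by
    intro α hα
    refine ⟨Rt.equivFin ⟨α, hα⟩, ?_⟩
    simp [ρt]
  have hρ' : ∀ l, ρt l ∈ Rt := fun l => (Rt.equivFin.symm l).2
  have hc0 : ∀ i, φ (c i) ≠ 0 := by
    intro i h0
    obtain ⟨l, z, hz⟩ := hne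
    have h2 : z ∈ algebraMap k ℂ '' (D' l : Set k) := by
      rw [hD'im]
      exact hz
    obtain ⟨α₀, hα₀, rfl⟩ := h2
    have h1 : 0 < order (c i) (algebraMap k ℂ α₀) := hind.1 l _ hz i
    rw [← hmult, h0, Polynomial.rootMultiplicity_zero] at h1
    exact lt_irrefl _ h1
  obtain ⟨W₀, hW₀, hΓW₀, hnear₀⟩ := nearV (k := k) (m := m) (M := Rt.card)
    (fun i => MvPolynomial.map φ (G i))
    (fun i => by
      obtain ⟨e, he⟩ := hG i
      exact ⟨e, he.map _⟩)
    (fun i => MvPolynomial.map φ (A i)) (fun i => MvPolynomial.map φ (B i)) δ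
    (fun i => (hA i).map _) (fun i => (hB i).map _)
    (fun i => (R i).map φ) (fun i => φ (c i)) ρt hc0
    (fun l I hI y h1 h2 => by
      by_contra h0
      obtain ⟨l', hl'⟩ := (hRt _).1 (hρ' l)
      obtain ⟨i, hi, h3⟩ := hpos l' _ ((hD' _ _).1 hl') I hI y ⟨h0, fun i => by
        have h4 := h1 i
        rw [hspec] at h4
        exact h4⟩
      apply h3
      have h4 := h2 i hi
      rw [hspec, hspec] at h4
      exact h4)
    Γ' (Set.toFinite _)
  -- the finite set of coefficients, with the degenerate parameters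
  let W : Finset k := hW₀.toFinset ∪ Rt
  have hW₀W : ∀ z ∈ W₀, z ∈ (W : Set k) := by
    intro z hz
    simp only [W, Finset.coe_union, Set.mem_union, Finset.mem_coe, Set.Finite.mem_toFinset]
    exact Or.inl hz
  have hRtW : ∀ z ∈ Rt, z ∈ (W : Set k) := by
    intro z hz
    simp only [W, Finset.coe_union, Set.mem_union, Finset.mem_coe]
    exact Or.inr hz
  have hnear : ∀ V : ValuationSubring ℂ, (∀ z ∈ (W : Set k), algebraMap k ℂ z ∈ V) → _ :=
    fun V hV => hnear₀ V fun z hz => hV z (hW₀W z hz)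
  have hRk : ∀ i, ((R i).map φ).Monic := fun i => (hR i).map _
  have hTk : ∀ i u w, (((R i).map φ).coeff u).coeff w ≠ 0 → u ≤ T ∧ w ≤ T := by
    intro i u w h0
    rw [Polynomial.coeff_map] at h0
    change ((Polynomial.mapRingHom (algebraMap K k)) ((R i).coeff u)).coeff w ≠ 0 at h0
    rw [Polynomial.coe_mapRingHom, Polynomial.coeff_map] at h0
    exact hT i u w fun h1 => h0 (by rw [h1, map_zero])
  -- the relations at a point
  have hdata : ∀ (t' : k) (r : ℕ)
      (Z : SpecialVariety (algebraMap (Algebra.adjoin ℤ (Γ : Set ℂ)) ℂ) n r) (x s : Fin n → ℂ)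
      (y : Fin (N + 1) → ℂ), x ∈ Z.locus → OnB (algebraMap k ℂ t') G y →
      (∀ i, valueAt (R i) (s i) (x i) = 0 ∧
        evalAt K (algebraMap k ℂ t') (c i) * eval₂ (evalAt K (algebraMap k ℂ t')) y (B i) * s i =
          eval₂ (evalAt K (algebraMap k ℂ t')) y (A i)) →
      (∀ i, Z.cls i = none → IsIntegral (Algebra.adjoin ℤ (algebraMap k ℂ '' Γ')) (x i)) ∧
      (∀ i, Polynomial.eval₂ (Polynomial.aeval (x i) : Polynomial k →ₐ[k] ℂ).toRingHom (s i)
        ((R i).map φ) = 0) ∧
      (∀ i, aeval y (TH526.ZL.spec t' (MvPolynomial.map φ (G i))) = 0) ∧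
      (∀ i, algebraMap k ℂ ((φ (c i)).eval t') *
        aeval y (TH526.ZL.spec t' (MvPolynomial.map φ (B i))) * s i =
        aeval y (TH526.ZL.spec t' (MvPolynomial.map φ (A i)))) := by
    intro t' r Z x s y hxZ hy hxy
    refine ⟨fun i hi => ?_, fun i => ?_, fun i => ?_, fun i => ?_⟩
    · obtain ⟨z, hz⟩ := hxZ
      rw [hΓ', (hz i).1 hi]
      rcases Z.allowed i with ⟨τ, hτ, hc⟩ | h
      · rw [hc]
        exact (singular_modulus_integral τ hτ).tower_top
      · exact h
    · rw [Polynomial.eval₂_map]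
      have h1 : ((Polynomial.aeval (x i) : Polynomial k →ₐ[k] ℂ).toRingHom).comp φ =
          (Polynomial.aeval (x i) : Polynomial K →ₐ[K] ℂ).toRingHom := by
        ext z
        · simp [φ]
        · simp [φ]
      rw [h1]
      exact (hxy i).1
    · rw [hspec]
      exact hy.2 i
    · rw [hspec, hspec]
      have h1 : algebraMap k ℂ ((φ (c i)).eval t') = evalAt K (algebraMap k ℂ t') (c i) := by
        rw [← hev t']
        rfl
      rw [h1]
      exact (hxy i).2
  have hΓV : ∀ V : ValuationSubring ℂ, (∀ z ∈ (W : Set k), algebraMap k ℂ z ∈ V) →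
      ∀ z ∈ Γ', algebraMap k ℂ z ∈ V := fun V hV z hz => hV z (hW₀W z (hΓW₀ hz))
  -- the data at the places
  have hplace : ∀ (t : k) {L : ℕ} (f : Fin L → Fin M)
      (_ : ∀ l, ∃ a ∈ D' (f l), ¬ Bad (W : Set k) t a)
      (ρ : Type) (x : ρ → ℂ), AlgebraicIndependent k x →
      ∀ l, ∃ (V : ValuationSubring ℂ) (α : k), α ∈ D' (f l) ∧
        V.valuation (algebraMap k ℂ (t - α)) < 1 ∧
        (∀ z ∈ (W : Set k), algebraMap k ℂ z ∈ V) ∧ ∀ j, x j ∈ V := by
    intro t L f hp ρ x hx l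
    obtain ⟨a, ha, hbad⟩ := hp l
    obtain ⟨V, h1, h2, h3⟩ := exists_place (W : Set k) (hRtW a ((hRt a).2 ⟨_, ha⟩)) hbad x hx
    exact ⟨V, a, ha, h1, h2, h3⟩
  have hnear' : ∀ (V : ValuationSubring ℂ) (_ : ∀ z ∈ (W : Set k), algebraMap k ℂ z ∈ V)
      (l : Fin M) (α : k) (_ : α ∈ D' l) (τ : k)
      (_ : V.valuation (algebraMap k ℂ (τ - α)) < 1)
      (s : Fin n → ℂ) (y : Fin (N + 1) → ℂ), y ≠ 0 →
      (∀ i, aeval y (TH526.ZL.spec τ (MvPolynomial.map φ (G i))) = 0) →
      (∀ i, algebraMap k ℂ ((φ (c i)).eval τ) *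
        aeval y (TH526.ZL.spec τ (MvPolynomial.map φ (B i))) * s i =
        aeval y (TH526.ZL.spec τ (MvPolynomial.map φ (A i)))) →
      ∃ E : Finset (Fin n), E.card ≤ m ∧ ∀ i, i ∉ E → V.valuation (s i) *
        V.valuation (algebraMap k ℂ (τ - α)) ^ (φ (c i)).rootMultiplicity α = 1 := by
    intro V hV l α hα τ hτ s y hy h1 h2
    obtain ⟨l', hl'⟩ := hρ α ((hRt α).2 ⟨l, hα⟩)
    have h3 := (hnear V hV).2 l' τ (by rw [hl']; exact hτ) s y hy h1 h2
    rw [hl'] at h3
    exact h3
  -- the two cores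
  have core1 : ∀ (t : k), (∃ f : Fin (n.choose 2 + 1) → Fin M, Function.Injective f ∧
      ∀ l, ∃ a ∈ D' (f l), ¬ Bad (W : Set k) t a) →
      NoAtypical (algebraMap (Algebra.adjoin ℤ (Γ : Set ℂ)) ℂ) K m
        (scaledImage (algebraMap k ℂ t) G A B R c) := by
    rintro t ⟨f, hf, hp⟩ r Z
    have hpt : ∀ x ∈ scaledImage (algebraMap k ℂ t) G A B R c ∩ Z.locus,
        ∀ S : Finset (Fin n),
        AlgebraicIndependent K (fun i : S => x i) → S.card + n ≤ r + m := by
      rintro x ⟨⟨y, hy, s, hxy⟩, hxZ⟩ S hS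
      have hSk : AlgebraicIndependent k (fun i : S => x i) := hS.extendScalars k
      choose V α hα hV1 hVW hVx using hplace t f hp S _ hSk
      obtain ⟨h1, h2, h3, h4⟩ := hdata t r Z x s y hxZ hy hxy
      refine TH526.ZL.coreV (m := m) (T := T) (fun i => (R i).map φ) hRk hTk
        (fun l i => (φ (c i)).rootMultiplicity (α l))
        (fun l i => by
          rw [hmult]
          exact hind.1 (f l) _ ((hD' _ _).1 (hα l)) i)
        (fun l l' hll i j hij q hq hqT => by
          rw [hmult, hmult, hmult, hmult]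
          exact hind.2 (f l) (f l') (fun h => hll (hf h)) _ ((hD' _ _).1 (hα l)) _
            ((hD' _ _).1 (hα l')) i j hij q hq hqT)
        Z.cls (fun i i' => ((Z.mat i).det * (Z.mat i').det).toNat) x s
        (fun i i' => by
          have := mul_pos (Z.det_pos i) (Z.det_pos i')
          omega)
        (fun i hi => alg_of_int Γ' (h1 i hi)) (fun i j l hi hj => rel_of_locus Z hxZ i j l hi hj)
        h2 S hSk V
        (fun l => (V l).valuation (algebraMap k ℂ (t - α l))) hV1
        (fun l i hi => v_le_of_int Γ' (V l) (hΓV _ (hVW l)) (h1 i hi))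
        (fun l => (hnear (V l) (hVW l)).1) hVx
        (fun l => hnear' (V l) (hVW l) (f l) (α l) (hα l) _ (hV1 l) s y hy.1 h3 h4)
    refine ⟨?_, hpt⟩
    intro A' hA' hcl' hprime
    obtain ⟨x, hxW, T', hT', hdim⟩ := Pool.Agent.W466.ZC.generic_dim K A' hprime hcl'
    have h2 := hpt x (hA' hxW) T' hT'
    calc zdim A' + (n : Cardinal) ≤ (T'.card : Cardinal) + (n : Cardinal) := by gcongr
      _ = ((T'.card + n : ℕ) : Cardinal) := by push_cast; rfl
      _ ≤ ((r + m : ℕ) : Cardinal) := by exact_mod_cast h2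
      _ = (r : Cardinal) + (m : Cardinal) := by push_cast; rfl
  have core2 : m = 1 → ∀ (t : k), (∃ f : Fin (3 + 1) → Fin M, Function.Injective f ∧
      ∀ l, ∃ a ∈ D' (f l), ¬ Bad (W : Set k) t a) →
      ¬ ∃ (r : ℕ) (Z : SpecialVariety (algebraMap (Algebra.adjoin ℤ (Γ : Set ℂ)) ℂ) n r),
        r + 2 ≤ n ∧ (scaledImage (algebraMap k ℂ t) G A B R c ∩ Z.locus).Nonempty := by
    rintro hm t ⟨f, hf, hp⟩ ⟨r, Z, hr, x, ⟨y, hy, s, hxy⟩, hxZ⟩
    subst hm
    have hS : AlgebraicIndependent k (Empty.elim : Empty → ℂ) :=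
      algebraicIndependent_empty_type_iff.2 (algebraMap k ℂ).injective
    choose V α hα hV1 hVW hVx using hplace t f hp Empty _ hS
    obtain ⟨h1, h2, h3, h4⟩ := hdata t r Z x s y hxZ hy hxy
    refine TH526.ZL.criterionCurveV (T := T) (fun i => (R i).map φ) hRk hTk V
      (fun l => (V l).valuation (algebraMap k ℂ (t - α l))) hV1
      (fun l => (hnear (V l) (hVW l)).1)
      (fun l i => (φ (c i)).rootMultiplicity (α l))
      (fun l i => by
        rw [hmult]
        exact hind.1 (f l) _ ((hD' _ _).1 (hα l)) i)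
      (fun l l' hll i j hij q hq hqT => by
        rw [hmult, hmult, hmult, hmult]
        exact hind.2 (f l) (f l') (fun h => hll (hf h)) _ ((hD' _ _).1 (hα l)) _
          ((hD' _ _).1 (hα l')) i j hij q hq hqT)
      hr Z.cls (fun i i' => ((Z.mat i).det * (Z.mat i').det).toNat) x s
      (fun i i' => by
        have := mul_pos (Z.det_pos i) (Z.det_pos i')
        omega)
      (fun l i hi => v_le_of_int Γ' (V l) (hΓV _ (hVW l)) (h1 i hi))
      (fun i j l hi hj => (rel_of_locus Z hxZ i j l hi hj).2)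
      h2 (fun l i j hij => ?_)
    obtain ⟨E, hE, hE'⟩ := hnear' (V l) (hVW l) (f l) (α l) (hα l) _ (hV1 l) s y hy.1 h3 h4
    by_contra hcon
    push Not at hcon
    have hi : i ∈ E := by
      by_contra h
      exact hcon.1 (hE' i h)
    have hj : j ∈ E := by
      by_contra h
      exact hcon.2 (hE' j h)
    have h5 : ({i, j} : Finset (Fin n)) ⊆ E := by
      intro u hu
      rcases Finset.mem_insert.1 hu with rfl | hu
      · exact hi
      · rw [Finset.mem_singleton.1 hu]
        exact hj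
    have h6 := Finset.card_le_card h5
    rw [Finset.card_pair hij] at h6
    omega  -- the conclusion
  have hplaces : ∀ (t : k) (l : Fin M), (∃ a ∈ D l, ∃ V : ValuationSubring ℂ,
      (∀ z ∈ W.image (algebraMap k ℂ), z ∈ V) ∧ V.valuation (algebraMap k ℂ t - a) < 1) →
      ∃ a ∈ D' l, ¬ Bad (W : Set k) t a := by
    rintro t l ⟨a, ha, V, hV, hlt⟩
    have h1 : a ∈ algebraMap k ℂ '' (D' l : Set k) := by
      rw [hD'im]
      exact ha
    obtain ⟨a', ha', rfl⟩ := h1
    exact ⟨a', ha', not_bad (W : Set k) t a' V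
      (fun z hz => hV _ (Finset.mem_image_of_mem _ (Finset.mem_coe.1 hz)))
      (hRtW a' ((hRt a').2 ⟨l, ha'⟩)) hlt⟩
  have hmemk : ∀ t : ℂ, IsAlgebraic K t → ∃ t' : k, algebraMap k ℂ t' = t := fun t ht =>
    ⟨⟨t, mem_algebraicClosure_iff'.2 ht.isIntegral⟩, rfl⟩
  refine ⟨W.image (algebraMap k ℂ), fun t ht hf => ?_, fun hm t ht hf => ?_⟩
  · obtain ⟨t', rfl⟩ := hmemk t ht
    obtain ⟨f, hf1, hf2⟩ := hf
    exact core1 t' ⟨f, hf1, fun l => hplaces t' (f l) (hf2 l)⟩
  · obtain ⟨t', rfl⟩ := hmemk t ht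
    obtain ⟨f, hf1, hf2⟩ := hf
    exact core2 hm t' ⟨f, hf1, fun l => hplaces t' (f l) (hf2 l)⟩

end Pool.Agent.Y199.SG.ZPY
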