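import Pool.Agent.Y199.SG.ZPV

/-!
Local criterion for families of subsets of `Y(1)^n` over an elliptic curve (helper file; the proof
follows helper910's result `MP_d83ecd_ag.FinitelyGeneratedFields`).
-/

set_option autoImplicit false

namespace Pool.Agent.Y199.SG.ZPZ

open H294ZP UpperHalfPlane MvPolynomial Pool.Agent.W282.ZP Pool.Agent.Y152.BD Pool.Agent.Y910.Z
  Pool.Agent.Y199.SG
open Pool.Agent.Y199.SG.ZPY (SpecialVariety NoAtypical evalAt OnB InGeneralPosition valueAt
  rel_of_locus)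

/-- The affine points of the elliptic curve `y² = x³ + a x + b`. -/
def Curve (a b : ℂ) : Set (Fin 2 → ℂ) :=
  {P | P 1 ^ 2 = P 0 ^ 3 + a * P 0 + b}

/-- The value `φ(P) = u(P) / v(P)` of a rational function. -/
noncomputable def value (u v : MvPolynomial (Fin 2) ℂ) (P : Fin 2 → ℂ) : ℂ :=
  eval P u / eval P v

/-- The local parameter at the point `Q` of the curve. -/
noncomputable def loc (Q P : Fin 2 → ℂ) : ℂ :=
  open Classical in if Q 1 = 0 then P 1 else P 0 - Q 0

/-- The function `c` has the order `e` at the point `Q` of the curve: `c = loc^e g / h` on the curve,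
where `g` and `h` are polynomials with coefficients algebraic over `K` which do not vanish
at `Q`. -/
def HasOrder (K : Subfield ℂ) (a b : ℂ) (Q : Fin 2 → ℂ) (c : MvPolynomial (Fin 2) ℂ)
    (e : ℕ) : Prop :=
  ∃ g h : MvPolynomial (Fin 2) ℂ, (∀ d, IsAlgebraic K (g.coeff d)) ∧
    (∀ d, IsAlgebraic K (h.coeff d)) ∧ eval Q g ≠ 0 ∧ eval Q h ≠ 0 ∧
    ∀ P ∈ Curve a b, eval P h * eval P c = loc Q P ^ e * eval P g

/-- The member of the family at the parameters `t` and `lam`: the points `x` over which there are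
values `s_i` of the functions on the factors of the product of modular curves, with
`lam_i s_i = A_i (y) / B_i (y)` for a point `y` of `B_t`. -/
def member {K : Subfield ℂ} (t : ℂ) {N n : ℕ} {κ : Type} (lam : Fin n → ℂ)
    (G : κ → MvPolynomial (Fin (N + 1)) (Polynomial K))
    (A B : Fin n → MvPolynomial (Fin (N + 1)) (Polynomial K))
    (R : Fin n → Polynomial (Polynomial K)) : Set (Fin n → ℂ) :=
  {x | ∃ y, OnB t G y ∧ ∃ s : Fin n → ℂ, ∀ i, valueAt (R i) (s i) (x i) = 0 ∧
    lam i * eval₂ (evalAt K t) y (B i) * s i = eval₂ (evalAt K t) y (A i)}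

/-- The orders are positive and independent. -/
def IndependentOrders {n M : ℕ} (T : ℕ) (e : Fin M → Fin n → ℕ) : Prop :=
  (∀ l i, 0 < e l i) ∧ ∀ l l', l ≠ l' → ∀ i j, i ≠ j → ∀ q, 0 < q → q ≤ T ^ 8 →
    ¬ IsSquare (q * (e l i * e l j * (e l' i * e l' j)))

theorem alg_evalK (K : Subfield ℂ) (q : MvPolynomial (Fin 2) ℂ) (P : Fin 2 → ℂ)
    (hq : ∀ k, IsAlgebraic K (q.coeff k)) (hP : ∀ i, IsAlgebraic K (P i)) :
    IsAlgebraic K (eval P q) := by
  have h : ∀ z : ℂ, IsAlgebraic K z → z ∈ algebraicClosure K ℂ := fun z hz =>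
    mem_algebraicClosure_iff'.2 hz.isIntegral
  have h1 : eval P q ∈ algebraicClosure K ℂ := by
    rw [eval_eq]
    exact sum_mem fun d _ => mul_mem (h _ (hq d)) (prod_mem fun i _ => pow_mem (h _ (hP i)) _)
  exact (mem_algebraicClosure_iff'.1 h1).isAlgebraic

/-- The local criterion over an elliptic curve. -/
theorem core (K : Subfield ℂ) [Countable K] (κ : Type) [Finite κ] (N n m M T : ℕ)
    (G : κ → MvPolynomial (Fin (N + 1)) (Polynomial K)) (hG : ∀ k, ∃ e, (G k).IsHomogeneous e)
    (A B : Fin n → MvPolynomial (Fin (N + 1)) (Polynomial K)) (δ : Fin n → ℕ)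
    (hA : ∀ i, (A i).IsHomogeneous (δ i)) (hB : ∀ i, (B i).IsHomogeneous (δ i))
    (R : Fin n → Polynomial (Polynomial K)) (hR : ∀ i, (R i).Monic)
    (hT : ∀ i u w, ((R i).coeff u).coeff w ≠ 0 → u ≤ T ∧ w ≤ T)
    (a b : ℂ) (ha : IsAlgebraic K a) (u v : MvPolynomial (Fin 2) ℂ)
    (hu : ∀ d, IsAlgebraic K (u.coeff d)) (hv : ∀ d, IsAlgebraic K (v.coeff d))
    (hb : IsAlgebraic K b)
    (Q : Fin M → Fin 2 → ℂ) (hQ : ∀ l, Q l ∈ Curve a b) (hQa : ∀ l i, IsAlgebraic K (Q l i))
    (hvQ : ∀ l, eval (Q l) v ≠ 0)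
    (c : Fin n → MvPolynomial (Fin 2) ℂ) (e : Fin M → Fin n → ℕ)
    (he : ∀ l i, HasOrder K a b (Q l) (c i) (e l i)) (hind : IndependentOrders T e)
    (hpos : ∀ l, InGeneralPosition (value u v (Q l)) m G A B)
    (Γ : Finset ℂ) (hΓ : ∀ γ ∈ Γ, IsAlgebraic K γ) :
    ∃ W₁ : Finset ℂ, ∀ P ∈ Curve a b, (∀ i, IsAlgebraic K (P i)) →
      (∀ l, ∃ V : ValuationSubring ℂ, (∀ z ∈ W₁, z ∈ V) ∧ ∀ i, V.valuation (P i - Q l i) < 1) →
      (n.choose 2 + 1 ≤ M → NoAtypical (algebraMap (Algebra.adjoin ℤ (Γ : Set ℂ)) ℂ) K m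
        (member (value u v P) (fun i => eval P (c i)) G A B R)) ∧
      (m = 1 → 4 ≤ M →
        ¬ ∃ (r : ℕ) (Z : SpecialVariety (algebraMap (Algebra.adjoin ℤ (Γ : Set ℂ)) ℂ) n r),
          r + 2 ≤ n ∧
          (member (value u v P) (fun i => eval P (c i)) G A B R ∩ Z.locus).Nonempty) := by
  classical
  let k := algebraicClosure K ℂ
  have hcl : IsAlgClosure K k := inferInstance
  have hac : IsAlgClosed k := hcl.isAlgClosed
  have hc0k : CharZero k := inferInstance
  let φ : Polynomial K →+* Polynomial k := Polynomial.mapRingHom (algebraMap K k)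
  have hev : ∀ (t : k), (algebraMap k ℂ).comp ((Polynomial.evalRingHom t).comp φ) =
      evalAt K (algebraMap k ℂ t) := by
    intro t
    refine Polynomial.ringHom_ext (fun a => ?_) ?_
    · simp only [φ, evalAt, RingHom.comp_apply, Polynomial.coe_mapRingHom, Polynomial.map_C,
        Polynomial.coe_evalRingHom, Polynomial.eval_C, AlgHom.toRingHom_eq_coe, RingHom.coe_coe,
        Polynomial.aeval_C]
      rfl
    · simp only [φ, evalAt, RingHom.comp_apply, Polynomial.coe_mapRingHom, Polynomial.map_X,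
        Polynomial.coe_evalRingHom, Polynomial.eval_X, AlgHom.toRingHom_eq_coe, RingHom.coe_coe,
        Polynomial.aeval_X]
  have hspec : ∀ (t : k) (P : MvPolynomial (Fin (N + 1)) (Polynomial K)) (y : Fin (N + 1) → ℂ),
      aeval y (TH526.ZL.spec t (MvPolynomial.map φ P)) =
        eval₂ (evalAt K (algebraMap k ℂ t)) y P := by
    intro t P y
    rw [TH526.ZL.spec, MvPolynomial.map_map, aeval_def, eval₂_map, hev]
  have hmemk : ∀ z : ℂ, IsAlgebraic K z → ∃ z' : k, algebraMap k ℂ z' = z := fun z hz =>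
    ⟨⟨z, mem_algebraicClosure_iff'.2 hz.isIntegral⟩, rfl⟩
  -- finite sets of algebraic numbers
  have hlift : ∀ S : Finset ℂ, (∀ z ∈ S, IsAlgebraic K z) → ∃ S' : Finset k,
      algebraMap k ℂ '' (S' : Set k) = (S : Set ℂ) := by
    intro S hS
    have hmem : ∀ z ∈ S, z ∈ algebraicClosure K ℂ := fun z hz =>
      mem_algebraicClosure_iff'.2 (hS z hz).isIntegral
    refine ⟨S.attach.image fun z => ⟨z.1, hmem z.1 z.2⟩, ?_⟩
    ext z
    constructor
    · rintro ⟨w, hw, rfl⟩
      obtain ⟨z', -, hz'⟩ := Finset.mem_image.1 (Finset.mem_coe.1 hw)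
      rw [← hz']
      exact z'.2
    · intro hz
      exact ⟨⟨z, hmem z hz⟩, Finset.mem_coe.2 (Finset.mem_image.2
        ⟨⟨z, hz⟩, Finset.mem_attach _ _, rfl⟩), rfl⟩
  obtain ⟨Γf, hΓf⟩ := hlift Γ hΓ
  let Γ' : Set k := (Γf : Set k)
  have hΓ' : algebraMap k ℂ '' Γ' = (Γ : Set ℂ) := hΓf
  -- the parameters
  have halgv : ∀ P : Fin 2 → ℂ, (∀ i, IsAlgebraic K (P i)) → IsAlgebraic K (value u v P) := by
    intro P hP
    have h1 := alg_evalK K u P hu hP
    have h2 := alg_evalK K v P hv hP
    have h3 := div_mem (mem_algebraicClosure_iff'.2 h1.isIntegral)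
      (mem_algebraicClosure_iff'.2 h2.isIntegral)
    exact (mem_algebraicClosure_iff'.1 h3).isAlgebraic
  choose α hα using fun l => hmemk _ (halgv (Q l) (hQa l))
  choose Q' hQ' using fun l i => hmemk _ (hQa l i)
  obtain ⟨a', ha'⟩ := hmemk a ha
  obtain ⟨b', hb'⟩ := hmemk b hb
  choose g h hg hh hg0 hh0 hgh using he
  obtain ⟨W₀, hW₀, hΓW₀, hnear₀⟩ := nearV (k := k) (m := m) (M := M)
    (fun i => MvPolynomial.map φ (G i))
    (fun i => by
      obtain ⟨e, he⟩ := hG i
      exact ⟨e, he.map _⟩)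
    (fun i => MvPolynomial.map φ (A i)) (fun i => MvPolynomial.map φ (B i)) δ
    (fun i => (hA i).map _) (fun i => (hB i).map _)
    (fun i => (R i).map φ) (fun _ => 1) α (fun _ => one_ne_zero)
    (fun l I hI y h1 h2 => by
      by_contra h0
      obtain ⟨i, hi, h3⟩ := hpos l I hI y ⟨h0, fun i => by
        have h4 := h1 i
        rw [hspec, hα] at h4
        exact h4⟩
      apply h3
      have h4 := h2 i hi
      rw [hspec, hspec, hα] at h4
      exact h4)
    Γ' (Set.toFinite _)
  -- the finite set of numbers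
  let S : Finset ℂ := {a, b} ∪ (Finset.univ.biUnion fun l => {Q l 0, Q l 1, (2 * Q l 1)⁻¹,
      (eval (Q l) v)⁻¹}) ∪ (u.support.image fun d => u.coeff d) ∪
      (v.support.image fun d => v.coeff d) ∪
    Finset.univ.biUnion fun l => Finset.univ.biUnion fun i =>
      ((g l i).support.image fun d => (g l i).coeff d) ∪
      ((h l i).support.image fun d => (h l i).coeff d) ∪
      {(eval (Q l) (g l i))⁻¹, (eval (Q l) (h l i))⁻¹}
  let Wset : Set k := W₀ ∪ algebraMap k ℂ ⁻¹' (S : Set ℂ)
  have hWfin : Wset.Finite :=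
    hW₀.union (S.finite_toSet.preimage (algebraMap k ℂ).injective.injOn)
  have hSV : ∀ V : ValuationSubring ℂ, (∀ z ∈ Wset, algebraMap k ℂ z ∈ V) → ∀ z ∈ S,
      IsAlgebraic K z → z ∈ V := by
    intro V hV z hz hza
    obtain ⟨z', rfl⟩ := hmemk z hza
    exact hV z' (Or.inr (Finset.mem_coe.2 hz))
  have hSa : a ∈ S := by simp [S]
  have hSb : b ∈ S := by simp [S]
  have hSl : ∀ l, ∀ z ∈ ({Q l 0, Q l 1, (2 * Q l 1)⁻¹, (eval (Q l) v)⁻¹} : Finset ℂ), z ∈ S := by
    intro l z hz
    refine Finset.mem_union_left _ (Finset.mem_union_left _ (Finset.mem_union_left _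
      (Finset.mem_union_right _ (Finset.mem_biUnion.2 ⟨l, Finset.mem_univ _, hz⟩))))
  have hSu : ∀ d ∈ u.support, u.coeff d ∈ S := fun d hd =>
    Finset.mem_union_left _ (Finset.mem_union_left _ (Finset.mem_union_right _
      (Finset.mem_image_of_mem _ hd)))
  have hSv : ∀ d ∈ v.support, v.coeff d ∈ S := fun d hd =>
    Finset.mem_union_left _ (Finset.mem_union_right _ (Finset.mem_image_of_mem _ hd))
  have hSgh : ∀ l i, ∀ z ∈ ((g l i).support.image fun d => (g l i).coeff d) ∪
      ((h l i).support.image fun d => (h l i).coeff d) ∪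
      {(eval (Q l) (g l i))⁻¹, (eval (Q l) (h l i))⁻¹}, z ∈ S := fun l i z hz =>
    Finset.mem_union_right _ (Finset.mem_biUnion.2 ⟨l, Finset.mem_univ _,
      Finset.mem_biUnion.2 ⟨i, Finset.mem_univ _, hz⟩⟩)
  have hinvalg : ∀ z : ℂ, IsAlgebraic K z → IsAlgebraic K z⁻¹ := fun z hz => by
    have h1 := inv_mem (mem_algebraicClosure_iff'.2 hz.isIntegral)
    exact (mem_algebraicClosure_iff'.1 h1).isAlgebraic
  have hcoefV : ∀ V : ValuationSubring ℂ, (∀ z ∈ Wset, algebraMap k ℂ z ∈ V) →
      ∀ q : MvPolynomial (Fin 2) ℂ, (∀ d, IsAlgebraic K (q.coeff d)) →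
      (∀ d ∈ q.support, q.coeff d ∈ S) → ∀ d, q.coeff d ∈ V := by
    intro V hV q hqa hq d
    by_cases h2 : d ∈ q.support
    · exact hSV V hV _ (hq d h2) (hqa d)
    · rw [MvPolynomial.notMem_support_iff.1 h2]
      exact zero_mem V
  have hQV : ∀ V : ValuationSubring ℂ, (∀ z ∈ Wset, algebraMap k ℂ z ∈ V) →
      ∀ l i, Q l i ∈ V := by
    intro V hV l i
    refine hSV V hV _ (hSl l _ ?_) (hQa l i)
    fin_cases i
    · exact Finset.mem_insert_self _ _
    · exact Finset.mem_insert_of_mem (Finset.mem_insert_self _ _)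
  -- the values at a near point
  have hvalue : ∀ V : ValuationSubring ℂ, (∀ z ∈ Wset, algebraMap k ℂ z ∈ V) →
      ∀ (l : Fin M) (P : Fin 2 → ℂ), P ∈ Curve a b → (∀ i, V.valuation (P i - Q l i) < 1) →
      V.valuation (value u v P - value u v (Q l)) < 1 ∧ V.valuation (loc (Q l) P) < 1 ∧
      ∀ i, V.valuation (eval P (c i)) = V.valuation (loc (Q l) P) ^ e l i := by
    intro V hV l P hP hPQ
    have hQl := hQV V hV l
    obtain ⟨u1, u2, u3⟩ := v_near V u P (Q l) (hcoefV V hV u hu hSu) hQl hPQ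
    obtain ⟨v1, v2, v3⟩ := v_near V v P (Q l) (hcoefV V hV v hv hSv) hQl hPQ
    obtain ⟨v4, v5⟩ := v_unit V v P (Q l) (hcoefV V hV v hv hSv) hQl hPQ (hvQ l)
      (hSV V hV _ (hSl l _ (by simp)) (hinvalg _ (alg_evalK K v (Q l) hv (hQa l))))
    refine ⟨?_, ?_, fun i => ?_⟩
    · have hvP : eval P v ≠ 0 := by
        intro h0
        rw [h0, map_zero] at v4
        exact zero_ne_one v4
      have hvQl := hvQ l
      have h1 : value u v P - value u v (Q l) =
          ((eval P u - eval (Q l) u) * eval (Q l) v - eval (Q l) u * (eval P v - eval (Q l) v))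
            / (eval P v * eval (Q l) v) := by
        rw [value, value]
        field_simp
        ring
      rw [h1, map_div₀, map_mul, v4, v5, mul_one, div_one]
      refine lt_of_le_of_lt (Valuation.map_sub _ _ _) (max_lt ?_ ?_)
      · rw [map_mul, v5, mul_one]
        exact u3
      · rw [map_mul, mul_comm]
        exact mul_lt_one_of_lt_of_le v3 ((ValuationSubring.valuation_le_one_iff _ _).2 u2)
    · by_cases h2 : Q l 1 = 0
      · rw [loc, if_pos h2]
        have h3 := hPQ 1
        rw [h2, sub_zero] at h3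
        exact h3
      · rw [loc, if_neg h2]
        exact hPQ 0
    · have hmem := hSgh l i
      have hga := alg_evalK K (g l i) (Q l) (hg l i) (hQa l)
      have hha := alg_evalK K (h l i) (Q l) (hh l i) (hQa l)
      have hG := (v_unit V (g l i) P (Q l) (hcoefV V hV _ (hg l i) fun d hd => hmem _
        (Finset.mem_union_left _ (Finset.mem_union_left _ (Finset.mem_image_of_mem _ hd)))) hQl hPQ
        (hg0 l i) (hSV V hV _ (hmem _ (Finset.mem_union_right _ (Finset.mem_insert_self _ _)))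
        (hinvalg _ hga))).1
      have hH := (v_unit V (h l i) P (Q l) (hcoefV V hV _ (hh l i) fun d hd => hmem _
        (Finset.mem_union_left _ (Finset.mem_union_right _ (Finset.mem_image_of_mem _ hd)))) hQl hPQ
        (hh0 l i) (hSV V hV _ (hmem _ (Finset.mem_union_right _ (Finset.mem_insert_of_mem
        (Finset.mem_singleton_self _)))) (hinvalg _ hha))).1
      have h2 := congrArg V.valuation (hgh l i P hP)
      rw [map_mul, map_mul, map_pow, hG, hH, one_mul, mul_one] at h2
      exact h2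
  have hRk : ∀ i, ((R i).map φ).Monic := fun i => (hR i).map _
  have hTk : ∀ i u w, (((R i).map φ).coeff u).coeff w ≠ 0 → u ≤ T ∧ w ≤ T := by
    intro i u w h0
    rw [Polynomial.coeff_map] at h0
    change ((Polynomial.mapRingHom (algebraMap K k)) ((R i).coeff u)).coeff w ≠ 0 at h0
    rw [Polynomial.coe_mapRingHom, Polynomial.coeff_map] at h0
    exact hT i u w fun h1 => h0 (by rw [h1, map_zero])
  refine ⟨hWfin.toFinset.image (algebraMap k ℂ), ?_⟩
  intro P hP hPa hPnear
  choose P' hP' using fun i => hmemk _ (hPa i)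
  obtain ⟨t, ht⟩ := hmemk _ (halgv P hPa)
  -- the places
  have hplace : ∀ (ρ : Type) (x : ρ → ℂ), AlgebraicIndependent k x →
      ∀ l, ∃ V : ValuationSubring ℂ, (∀ i, V.valuation (P i - Q l i) < 1) ∧
        (∀ z ∈ Wset, algebraMap k ℂ z ∈ V) ∧ ∀ j, x j ∈ V := by
    intro ρ x hx l
    obtain ⟨V₀, hV₀, hV₀n⟩ := hPnear l
    have hV₀W : ∀ z ∈ Wset, algebraMap k ℂ z ∈ V₀ := fun z hz =>
      hV₀ _ (Finset.mem_image_of_mem _ ((Set.Finite.mem_toFinset hWfin).2 hz))
    have hinj := (algebraMap k ℂ).injective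
    obtain ⟨V, h1, h2, h3⟩ := exists_place2 Wset a' b' P' (Q' l) (by
        apply hinj
        rw [map_add, map_add, map_mul, map_pow, map_pow, hP', hP', ha', hb']
        exact hP) (by
        apply hinj
        rw [map_add, map_add, map_mul, map_pow, map_pow, hQ', hQ', ha', hb']
        exact hQ l)
      (Or.inr (by
        change algebraMap k ℂ a' ∈ (S : Set ℂ)
        rw [ha']
        exact hSa))
      (fun i => Or.inr (by
        change algebraMap k ℂ (Q' l i) ∈ (S : Set ℂ)
        rw [hQ']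
        refine hSl l _ ?_
        fin_cases i
        · exact Finset.mem_insert_self _ _
        · exact Finset.mem_insert_of_mem (Finset.mem_insert_self _ _)))
      (fun _ => Or.inr (by
        change algebraMap k ℂ (2 * Q' l 1)⁻¹ ∈ (S : Set ℂ)
        rw [map_inv₀, map_mul, map_ofNat, hQ']
        exact hSl l _ (by simp)))
      V₀ hV₀W (fun i => by
        rw [hP', hQ']
        exact hV₀n i) x hx
    refine ⟨V, fun i => ?_, h2, h3⟩
    have h4 := h1 i
    rw [hP', hQ'] at h4
    exact h4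
  -- the relations at a point
  have hdata : ∀ (r : ℕ)
      (Z : SpecialVariety (algebraMap (Algebra.adjoin ℤ (Γ : Set ℂ)) ℂ) n r) (x s : Fin n → ℂ),
      x ∈ Z.locus → (∀ i, valueAt (R i) (s i) (x i) = 0) →
      (∀ i, Z.cls i = none → IsIntegral (Algebra.adjoin ℤ (algebraMap k ℂ '' Γ')) (x i)) ∧
      (∀ i, Polynomial.eval₂ (Polynomial.aeval (x i) : Polynomial k →ₐ[k] ℂ).toRingHom (s i)
        ((R i).map φ) = 0) := by
    intro r Z x s hxZ hxy
    refine ⟨fun i hi => ?_, fun i => ?_⟩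
    · obtain ⟨z, hz⟩ := hxZ
      rw [hΓ', (hz i).1 hi]
      rcases Z.allowed i with ⟨τ, hτ, hc⟩ | h
      · rw [hc]
        exact (singular_modulus_integral τ hτ).tower_top
      · exact h
    · rw [Polynomial.eval₂_map]
      have h1 : ((Polynomial.aeval (x i) : Polynomial k →ₐ[k] ℂ).toRingHom).comp φ =
          (Polynomial.aeval (x i) : Polynomial K →ₐ[K] ℂ).toRingHom := by
        ext z
        · simp [φ]
        · simp [φ]
      rw [h1]
      exact hxy i
  have hgood : ∀ (V : ValuationSubring ℂ) (_ : ∀ z ∈ Wset, algebraMap k ℂ z ∈ V) (l : Fin M)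
      (_ : ∀ i, V.valuation (P i - Q l i) < 1) (s : Fin n → ℂ) (y : Fin (N + 1) → ℂ),
      OnB (value u v P) G y →
      (∀ i, eval P (c i) * eval₂ (evalAt K (value u v P)) y (B i) * s i =
        eval₂ (evalAt K (value u v P)) y (A i)) →
      ∃ E : Finset (Fin n), E.card ≤ m ∧ ∀ i, i ∉ E → V.valuation (s i) *
        V.valuation (loc (Q l) P) ^ e l i = 1 := by
    intro V hV l hPQ s y hy hxy
    obtain ⟨h1, -, h3⟩ := hvalue V hV l P hP hPQ
    obtain ⟨E, hE, hE'⟩ := (hnear₀ V fun z hz => hV z (Or.inl hz)).2 l t (by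
      rw [map_sub, ht, hα]
      exact h1) (fun i => eval P (c i) * s i) y hy.1 (fun i => by
      rw [hspec, ht]
      exact hy.2 i) (fun i => by
      rw [Polynomial.eval_one, map_one, one_mul, hspec, hspec, ht, ← hxy i]
      ring)
    refine ⟨E, hE, fun i hi => ?_⟩
    have h4 := hE' i hi
    rw [map_mul, h3 i] at h4
    have h5 : (1 : Polynomial k).rootMultiplicity (α l) = 0 := by
      rw [Polynomial.rootMultiplicity_eq_zero_iff]
      intro h6
      rw [Polynomial.IsRoot, Polynomial.eval_one] at h6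
      exact absurd h6 one_ne_zero
    rw [h5, pow_zero, mul_one] at h4
    rw [mul_comm]
    exact h4
  refine ⟨fun hM => ?_, fun hm hM => ?_⟩
  · intro r Z
    have hpt : ∀ x ∈ member (value u v P) (fun i => eval P (c i)) G A B R ∩ Z.locus,
        ∀ S : Finset (Fin n),
        AlgebraicIndependent K (fun i : S => x i) → S.card + n ≤ r + m := by
      rintro x ⟨⟨y, hy, s, hxy⟩, hxZ⟩ S hS
      have hSk : AlgebraicIndependent k (fun i : S => x i) := hS.extendScalars k
      choose V hV1 hVW hVx using fun l => hplace S _ hSk (Fin.castLE hM l)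
      obtain ⟨h1, h2⟩ := hdata r Z x s hxZ fun i => (hxy i).1
      refine TH526.ZL.coreV (m := m) (T := T) (fun i => (R i).map φ) hRk hTk
        (fun l i => e (Fin.castLE hM l) i)
        (fun l i => hind.1 _ i)
        (fun l l' hll i j hij q hq hqT =>
          hind.2 _ _ (fun h => hll (Fin.castLE_injective hM h)) i j hij q hq hqT)
        Z.cls (fun i i' => ((Z.mat i).det * (Z.mat i').det).toNat) x s
        (fun i i' => by
          have := mul_pos (Z.det_pos i) (Z.det_pos i')
          omega)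
        (fun i hi => alg_of_int Γ' (h1 i hi)) (fun i j l hi hj => rel_of_locus Z hxZ i j l hi hj)
        h2 S hSk V
        (fun l => (V l).valuation (loc (Q (Fin.castLE hM l)) P))
        (fun l => (hvalue (V l) (hVW l) _ P hP (hV1 l)).2.1)
        (fun l i hi => v_le_of_int Γ' (V l) (fun z hz => hVW l z (Or.inl (hΓW₀ hz))) (h1 i hi))
        (fun l => (hnear₀ (V l) fun z hz => hVW l z (Or.inl hz)).1) hVx
        (fun l => hgood (V l) (hVW l) _ (hV1 l) s y hy fun i => (hxy i).2)
    refine ⟨?_, hpt⟩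
    intro A' hA' hcl' hprime
    obtain ⟨x, hxW, T', hT', hdim⟩ := Pool.Agent.W466.ZC.generic_dim K A' hprime hcl'
    have h2 := hpt x (hA' hxW) T' hT'
    calc zdim A' + (n : Cardinal) ≤ (T'.card : Cardinal) + (n : Cardinal) := by gcongr
      _ = ((T'.card + n : ℕ) : Cardinal) := by push_cast; rfl
      _ ≤ ((r + m : ℕ) : Cardinal) := by exact_mod_cast h2
      _ = (r : Cardinal) + (m : Cardinal) := by push_cast; rfl
  · rintro ⟨r, Z, hr, x, ⟨y, hy, s, hxy⟩, hxZ⟩
    have hS : AlgebraicIndependent k (Empty.elim : Empty → ℂ) :=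
      algebraicIndependent_empty_type_iff.2 (algebraMap k ℂ).injective
    choose V hV1 hVW hVx using fun l => hplace Empty _ hS (Fin.castLE hM l)
    obtain ⟨h1, h2⟩ := hdata r Z x s hxZ fun i => (hxy i).1
    refine TH526.ZL.criterionCurveV (T := T) (fun i => (R i).map φ) hRk hTk V
      (fun l => (V l).valuation (loc (Q (Fin.castLE hM l)) P))
      (fun l => (hvalue (V l) (hVW l) _ P hP (hV1 l)).2.1)
      (fun l => (hnear₀ (V l) fun z hz => hVW l z (Or.inl hz)).1)
      (fun l i => e (Fin.castLE hM l) i)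
      (fun l i => hind.1 _ i)
      (fun l l' hll i j hij q hq hqT =>
        hind.2 _ _ (fun h => hll (Fin.castLE_injective hM h)) i j hij q hq hqT)
      hr Z.cls (fun i i' => ((Z.mat i).det * (Z.mat i').det).toNat) x s
      (fun i i' => by
        have := mul_pos (Z.det_pos i) (Z.det_pos i')
        omega)
      (fun l i hi => v_le_of_int Γ' (V l) (fun z hz => hVW l z (Or.inl (hΓW₀ hz))) (h1 i hi))
      (fun i j l hi hj => (rel_of_locus Z hxZ i j l hi hj).2)
      h2 (fun l i j hij => ?_)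
    obtain ⟨E, hE, hE'⟩ := hgood (V l) (hVW l) _ (hV1 l) s y hy fun i => (hxy i).2
    subst hm
    by_contra hcon
    push Not at hcon
    have hi : i ∈ E := by
      by_contra h
      exact hcon.1 (hE' i h)
    have hj : j ∈ E := by
      by_contra h
      exact hcon.2 (hE' j h)
    have h5 : ({i, j} : Finset (Fin n)) ⊆ E := by
      intro u hu
      rcases Finset.mem_insert.1 hu with rfl | hu
      · exact hi
      · rw [Finset.mem_singleton.1 hu]
        exact hj
    have h6 := Finset.card_le_card h5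
    rw [Finset.card_pair hij] at h6
    omega

end Pool.Agent.Y199.SG.ZPZ
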